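import Pool.Agent.H467.PT.Spec

/-!
# Positive proportion of all twists: there are many good sets of primes
-/

set_option autoImplicit false
set_option linter.all false

open Finset
open scoped Classical

namespace Pool.Agent.H467.PT.Gc

section basic

variable {ι : Type} (S : PSys ι)

theorem deg_le_dg {U : Finset ι} {p : ι} (hp : p ∈ U) : S.deg p ≤ S.dg U := by
  unfold PSys.dg
  exact Finset.single_le_sum (f := S.deg) (fun _ _ => Nat.zero_le _) hp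

theorem mem_UU {n : ℕ} {U : Finset ι} : U ∈ S.UU n ↔ S.dg U = n := by
  unfold PSys.UU
  rw [Finset.mem_filter, Finset.mem_powerset]
  refine ⟨fun h => h.2, fun h => ⟨fun p hp => ?_, h⟩⟩
  rw [S.mem_le, ← h]
  exact deg_le_dg S hp

theorem mem_eq {d : ℕ} {p : ι} : p ∈ S.eq d ↔ S.deg p = d := by
  unfold PSys.eq
  rw [Finset.mem_filter, S.mem_le]
  exact ⟨fun h => h.2, fun h => ⟨h.le, h⟩⟩

theorem dg_sdiff {U V : Finset ι} (h : V ⊆ U) : S.dg (U \ V) + S.dg V = S.dg U := by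
  unfold PSys.dg
  exact Finset.sum_sdiff h

theorem dg_insert {V : Finset ι} {j : ι} (h : j ∉ V) :
    S.dg (insert j V) = S.deg j + S.dg V := by
  unfold PSys.dg
  exact Finset.sum_insert h

theorem dg_singleton (j : ι) : S.dg {j} = S.deg j := by
  unfold PSys.dg
  exact Finset.sum_singleton _ _

/-- the sum over the sets which contain `V` -/
theorem sum_super (f : Finset ι → ℝ) (hf : ∀ U, 0 ≤ f U) (V : Finset ι) (N : ℕ)
    (hV : S.dg V ≤ N) :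
    ∑ U ∈ S.UU N, (if V ⊆ U then f (U \ V) else 0) ≤ ∑ U ∈ S.UU (N - S.dg V), f U := by
  rw [← Finset.sum_filter]
  have hinj : Set.InjOn (fun U : Finset ι => U \ V)
      (((S.UU N).filter (fun U => V ⊆ U) : Finset (Finset ι)) : Set (Finset ι)) := by
    intro U₁ h₁ U₂ h₂ h
    have h₁' := (Finset.mem_filter.mp (Finset.mem_coe.mp h₁)).2
    have h₂' := (Finset.mem_filter.mp (Finset.mem_coe.mp h₂)).2
    have h3 : U₁ \ V = U₂ \ V := h
    rw [← Finset.sdiff_union_of_subset h₁', ← Finset.sdiff_union_of_subset h₂', h3]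
  have h1 : ∑ U ∈ (S.UU N).filter (fun U => V ⊆ U), f (U \ V) =
      ∑ U ∈ ((S.UU N).filter (fun U => V ⊆ U)).image (fun U => U \ V), f U :=
    (Finset.sum_image hinj).symm
  rw [h1]
  refine Finset.sum_le_sum_of_subset_of_nonneg ?_ (fun U _ _ => hf U)
  intro U' hU'
  obtain ⟨U, hU, rfl⟩ := Finset.mem_image.mp hU'
  obtain ⟨hU1, hU2⟩ := Finset.mem_filter.mp hU
  rw [mem_UU] at hU1 ⊢
  have := dg_sdiff S hU2
  omega

/-- the number of the sets which contain `V` -/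
theorem count_super {q : ℕ} (hq : 2 ≤ q) {C' : ℝ} (hC' : 0 < C')
    (hc : ∀ N : ℕ, ((S.UU N).card : ℝ) ≤ C' * (q : ℝ) ^ N) (V : Finset ι) (N : ℕ) :
    ∑ U ∈ S.UU N, (if V ⊆ U then (1 : ℝ) else 0) ≤ C' * (q : ℝ) ^ N * (1 / (q : ℝ)) ^ (S.dg V) := by
  have hq0 : (0 : ℝ) < q := by exact_mod_cast (by omega : 0 < q)
  by_cases hV : S.dg V ≤ N
  · refine (sum_super S (fun _ => 1) (fun _ => zero_le_one) V N hV).trans ?_
    rw [Finset.sum_const, nsmul_eq_mul, mul_one]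
    refine (hc _).trans (le_of_eq ?_)
    rw [mul_assoc]
    congr 1
    rw [one_div, inv_pow, ← div_eq_mul_inv, eq_div_iff (by positivity), ← pow_add]
    congr 1
    omega
  · have h0 : ∑ U ∈ S.UU N, (if V ⊆ U then (1 : ℝ) else 0) = 0 := by
      refine Finset.sum_eq_zero fun U hU => if_neg fun hVU => hV ?_
      rw [mem_UU] at hU
      have := dg_sdiff S hVU
      omega
    rw [h0]
    positivity

theorem cnt_sdiff {x Y : ℕ} {U : Finset ι} {j : ι} (h : ¬ x < S.deg j) :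
    cnt S x Y (U \ {j}) = cnt S x Y U := by
  unfold cnt
  congr 1
  ext p
  simp only [Finset.mem_filter, Finset.mem_sdiff, Finset.mem_singleton]
  constructor
  · rintro ⟨⟨h1, _⟩, h2⟩
    exact ⟨h1, h2⟩
  · rintro ⟨h1, h2⟩
    refine ⟨⟨h1, ?_⟩, h2⟩
    rintro rfl
    exact h h2.1

theorem cnt_rough {L Y : ℕ} {U : Finset ι} (h : ∀ p ∈ U, L < S.deg p) :
    cnt S 0 Y U = cnt S L Y U := by
  unfold cnt
  congr 1
  refine Finset.filter_congr fun p hp => ?_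
  have h1 := h p hp
  constructor
  · rintro ⟨_, h2⟩
    exact ⟨h1, h2⟩
  · rintro ⟨_, h2⟩
    exact ⟨by omega, h2⟩

/-- grouping by the degree -/
theorem regroup (L N : ℕ) (G : ℕ → ℝ) :
    ∑ j ∈ (S.le N).filter (fun j => L < S.deg j), G (S.deg j) =
      ∑ d ∈ Finset.Ioc L N, ((S.eq d).card : ℝ) * G d := by
  have h1 : ∀ j ∈ (S.le N).filter (fun j => L < S.deg j), S.deg j ∈ Finset.Ioc L N := by
    intro j hj
    obtain ⟨h2, h3⟩ := Finset.mem_filter.mp hj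
    rw [S.mem_le] at h2
    exact Finset.mem_Ioc.mpr ⟨h3, h2⟩
  rw [← Finset.sum_fiberwise_of_maps_to h1]
  refine Finset.sum_congr rfl fun d hd => ?_
  obtain ⟨hd1, hd2⟩ := Finset.mem_Ioc.mp hd
  have h2 : ((S.le N).filter (fun j => L < S.deg j)).filter (fun j => S.deg j = d) = S.eq d := by
    ext j
    rw [Finset.mem_filter, Finset.mem_filter, S.mem_le, mem_eq]
    constructor
    · rintro ⟨_, h⟩
      exact h
    · intro h
      exact ⟨⟨by omega, by omega⟩, h⟩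
  rw [h2]
  have h3 : ∀ j ∈ S.eq d, G (S.deg j) = G d := by
    intro j hj
    rw [(mem_eq S).mp hj]
  rw [Finset.sum_congr rfl h3, Finset.sum_const, nsmul_eq_mul]

theorem geom_tail {r : ℝ} (h0 : 0 ≤ r) (h1 : r < 1) (L N : ℕ) :
    ∑ d ∈ Finset.Ioc L N, r ^ d ≤ r ^ L / (1 - r) := by
  have h2 : 0 < 1 - r := by linarith
  have h3 : ∀ N, ∑ d ∈ Finset.Ioc L N, r ^ d ≤ (r ^ L - r ^ (max L N)) / (1 - r) := by
    intro N
    induction N with
    | zero => simp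
    | succ N ih =>
      rcases Nat.lt_or_ge N L with h | h
      · have h4 : Finset.Ioc L (N + 1) = ∅ := Finset.Ioc_eq_empty (by omega)
        rw [h4, Finset.sum_empty, max_eq_left (by omega)]
        simp
      · rw [Finset.sum_Ioc_succ_top h]
        rw [max_eq_right h] at ih
        rw [max_eq_right (by omega)]
        have h5 : r ^ (N + 1) ≤ (r ^ N - r ^ (N + 1)) / (1 - r) := by
          rw [le_div_iff₀ h2, pow_succ]
          have : 0 ≤ r ^ N := by positivity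
          nlinarith [mul_nonneg this (mul_nonneg (sub_nonneg.mpr h1.le) (sub_nonneg.mpr h1.le))]
        calc ∑ d ∈ Finset.Ioc L N, r ^ d + r ^ (N + 1)
            ≤ (r ^ L - r ^ N) / (1 - r) + (r ^ N - r ^ (N + 1)) / (1 - r) := add_le_add ih h5
          _ = (r ^ L - r ^ (N + 1)) / (1 - r) := by ring
  refine (h3 N).trans ?_
  apply div_le_div_of_nonneg_right _ h2.le
  have : 0 ≤ r ^ (max L N) := by positivity
  linarith

/-- the sum of a function of the degree -/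
theorem regroup_le {q : ℕ} {C c : ℝ} {W n₀ : ℕ} (hP : PHyp S q C c W n₀) (L N : ℕ) (G : ℕ → ℝ)
    {M r : ℝ} (hM : 0 ≤ M) (h0 : 0 ≤ r) (h1 : r < 1) (hG0 : ∀ d, L < d → 0 ≤ G d)
    (hG : ∀ d, L < d → (q : ℝ) ^ d * G d ≤ M * r ^ d) :
    ∑ j ∈ (S.le N).filter (fun j => L < S.deg j), G (S.deg j) ≤ C * M * (r ^ L / (1 - r)) := by
  have hC : 0 ≤ C := by linarith [hP.C1]
  rw [regroup]
  calc ∑ d ∈ Finset.Ioc L N, ((S.eq d).card : ℝ) * G d
      ≤ ∑ d ∈ Finset.Ioc L N, C * M * r ^ d := by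
        refine Finset.sum_le_sum fun d hd => ?_
        have hd1 := (Finset.mem_Ioc.mp hd).1
        have h2 : ((S.eq d).card : ℝ) ≤ C * (q : ℝ) ^ d := by
          have h3 := hP.up d
          have h4 : (1 : ℝ) ≤ d := by exact_mod_cast (by omega : 1 ≤ d)
          have h5 : (0 : ℝ) ≤ ((S.eq d).card : ℝ) := Nat.cast_nonneg _
          nlinarith
        calc ((S.eq d).card : ℝ) * G d ≤ C * (q : ℝ) ^ d * G d :=
              mul_le_mul_of_nonneg_right h2 (hG0 d hd1)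
          _ = C * ((q : ℝ) ^ d * G d) := by ring
          _ ≤ C * (M * r ^ d) := mul_le_mul_of_nonneg_left (hG d hd1) hC
          _ = C * M * r ^ d := by ring
    _ = C * M * ∑ d ∈ Finset.Ioc L N, r ^ d := by rw [Finset.mul_sum]
    _ ≤ C * M * (r ^ L / (1 - r)) :=
        mul_le_mul_of_nonneg_left (geom_tail h0 h1 L N) (mul_nonneg hC hM)

end basic

/-! ### Numbers -/

/-- a fourth root of one half -/
theorem exists_root : ∃ w : ℝ, 0 < w ∧ w < 1 ∧ w ^ 4 = 1 / 2 := by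
  refine ⟨(1 / 2 : ℝ) ^ ((1 : ℝ) / 4), by positivity, ?_, ?_⟩
  · exact Real.rpow_lt_one (by norm_num) (by norm_num) (by norm_num)
  · rw [← Real.rpow_natCast, ← Real.rpow_mul (by norm_num)]
    norm_num

theorem yf_pos (d : ℕ) : (0 : ℝ) < (Yf d : ℝ) := by
  unfold Yf
  positivity

theorem yf_inv {w : ℝ} (h0 : 0 < w) (h1 : w < 1) (h4 : w ^ 4 = 1 / 2) (d : ℕ) :
    1 / (Yf d : ℝ) ≤ 2 * w ^ d := by
  have h2 : d = 4 * (d / 4) + d % 4 := (Nat.div_add_mod d 4).symm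
  have h3 : w ^ d = (1 / 2 : ℝ) ^ (d / 4) * w ^ (d % 4) := by
    conv_lhs => rw [h2]
    rw [pow_add, pow_mul, h4]
  have h5 : w ^ 4 ≤ w ^ (d % 4) :=
    pow_le_pow_of_le_one h0.le h1.le (Nat.mod_lt _ (by norm_num)).le
  have h6 : 1 / (Yf d : ℝ) = (1 / 2 : ℝ) ^ (d / 4) := by
    unfold Yf
    push_cast
    rw [one_div_pow]
  rw [h6, h3]
  rw [h4] at h5
  have h7 : (0 : ℝ) < (1 / 2 : ℝ) ^ (d / 4) := by positivity
  nlinarith

/-- `Yf d ^ 2 / q ^ d` is exponentially small -/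
theorem yf_sq {w : ℝ} (h0 : 0 < w) (h1 : w < 1) (h4 : w ^ 4 = 1 / 2) {q : ℕ} (hq : 2 ≤ q) (d : ℕ) :
    (Yf d : ℝ) ^ 2 / (q : ℝ) ^ d ≤ (w ^ 2) ^ d := by
  have hq' : (2 : ℝ) ≤ q := by exact_mod_cast hq
  have h2 : d = 4 * (d / 4) + d % 4 := (Nat.div_add_mod d 4).symm
  have h3 : (2 : ℝ) ^ d ≤ (q : ℝ) ^ d := pow_le_pow_left₀ (by norm_num) hq' d
  have h5 : (Yf d : ℝ) ^ 2 / (q : ℝ) ^ d ≤ (Yf d : ℝ) ^ 2 / (2 : ℝ) ^ d :=
    div_le_div_of_nonneg_left (by positivity) (by positivity) h3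
  refine h5.trans ?_
  rw [div_le_iff₀ (by positivity)]
  have h6 : (Yf d : ℝ) ^ 2 = (2 : ℝ) ^ (2 * (d / 4)) := by
    unfold Yf
    push_cast
    rw [← pow_mul, mul_comm]
  have h7 : (2 : ℝ) ^ d = (w ^ 4)⁻¹ ^ d := by
    rw [h4]
    norm_num
  have h8 : (w ^ 2) ^ d * (2 : ℝ) ^ d = (w⁻¹) ^ (2 * d) := by
    rw [h7, ← mul_pow]
    have h9 : w ^ 2 * (w ^ 4)⁻¹ = w⁻¹ ^ 2 := by
      field_simp
    rw [h9, ← pow_mul]
  have h10 : (2 : ℝ) ^ (2 * (d / 4)) = (w⁻¹) ^ (4 * (2 * (d / 4))) := by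
    rw [pow_mul (w⁻¹) 4, inv_pow, h4]
    norm_num
  rw [h6, h8, h10]
  exact pow_le_pow_right₀ ((one_le_inv₀ h0).mpr h1.le) (by omega)

/-- the ratio in Hall's inequality is exponentially small -/
theorem ratio_small {c : ℝ} (hc : 0 < c) : ∃ K t : ℝ, 0 < K ∧ 0 < t ∧ t < 1 ∧ ∀ d : ℕ,
    (2 * ((d : ℝ) + 1) / ((Yf d : ℝ) + 1)) ^ (c / 2) ≤ K * t ^ d := by
  obtain ⟨w, w0, w1, w4⟩ := exists_root
  set s := Real.sqrt w with hs
  have hs0 : 0 < s := Real.sqrt_pos.mpr w0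
  have hs2 : s ^ 2 = w := Real.sq_sqrt w0.le
  have hs1 : s < 1 := by
    by_contra h
    rw [not_lt] at h
    have : 1 ≤ s ^ 2 := one_le_pow₀ h
    rw [hs2] at this
    linarith
  have habs : |s| < 1 := by rwa [abs_of_pos hs0]
  have ht1 := tendsto_pow_const_mul_const_pow_of_abs_lt_one 1 habs
  have ht0 := tendsto_pow_const_mul_const_pow_of_abs_lt_one 0 habs
  have ht : Filter.Tendsto (fun n : ℕ => (n : ℝ) ^ 1 * s ^ n + (n : ℝ) ^ 0 * s ^ n) Filter.atTop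
      (nhds (0 + 0)) := ht1.add ht0
  obtain ⟨B, hB⟩ := ht.bddAbove_range
  have hB' : ∀ d : ℕ, ((d : ℝ) + 1) * s ^ d ≤ |B| + 1 := by
    intro d
    have h1 := hB ⟨d, rfl⟩
    have h2 : (d : ℝ) ^ 1 * s ^ d + (d : ℝ) ^ 0 * s ^ d = ((d : ℝ) + 1) * s ^ d := by ring
    have h3 : (d : ℝ) ^ 1 * s ^ d + (d : ℝ) ^ 0 * s ^ d ≤ B := h1
    rw [h2] at h3
    linarith [le_abs_self B]
  refine ⟨(4 * (|B| + 1)) ^ (c / 2), s ^ (c / 2), by positivity, by positivity,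
    Real.rpow_lt_one hs0.le hs1 (by positivity), fun d => ?_⟩
  have h1 : 2 * ((d : ℝ) + 1) / ((Yf d : ℝ) + 1) ≤ 4 * (|B| + 1) * s ^ d := by
    have hy := yf_pos d
    have h2 : 2 * ((d : ℝ) + 1) / ((Yf d : ℝ) + 1) ≤ 2 * ((d : ℝ) + 1) * (1 / (Yf d : ℝ)) := by
      rw [div_eq_mul_one_div]
      apply mul_le_mul_of_nonneg_left _ (by positivity)
      apply one_div_le_one_div_of_le hy
      linarith
    refine h2.trans ?_
    have h3 := yf_inv w0 w1 w4 d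
    have h4 : w ^ d = s ^ d * s ^ d := by
      rw [← hs2, ← pow_mul, ← pow_add]
      congr 1
      ring
    rw [h4] at h3
    calc 2 * ((d : ℝ) + 1) * (1 / (Yf d : ℝ)) ≤ 2 * ((d : ℝ) + 1) * (2 * (s ^ d * s ^ d)) :=
          mul_le_mul_of_nonneg_left h3 (by positivity)
      _ = 4 * (((d : ℝ) + 1) * s ^ d) * s ^ d := by ring
      _ ≤ 4 * (|B| + 1) * s ^ d := by
          apply mul_le_mul_of_nonneg_right _ (by positivity)
          linarith [hB' d]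
  have hpos : 0 ≤ 2 * ((d : ℝ) + 1) / ((Yf d : ℝ) + 1) := by
    have hy := yf_pos d
    positivity
  refine (Real.rpow_le_rpow hpos h1 (by positivity)).trans (le_of_eq ?_)
  rw [Real.mul_rpow (by positivity) (by positivity)]
  congr 1
  rw [← Real.rpow_natCast, ← Real.rpow_mul hs0.le, ← Real.rpow_natCast, ← Real.rpow_mul hs0.le]
  congr 1
  ring

theorem pow_big (k : ℕ) (hk : 6 ≤ k) : 8 * k + 8 ≤ 2 ^ k := by
  induction k, hk using Nat.le_induction with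
  | base => norm_num
  | succ k hk ih =>
    rw [pow_succ]
    omega

theorem half_of_yf {d N : ℕ} (hN : 48 ≤ N) (h : Yf d < N) : 2 * d ≤ N := by
  by_contra hd
  rw [not_le] at hd
  have h1 : N / 8 ≤ d / 4 := by omega
  have h2 : 2 ^ (N / 8) ≤ 2 ^ (d / 4) := Nat.pow_le_pow_right (by norm_num) h1
  have h3 := pow_big (N / 8) (by omega)
  have h4 : Yf d = 2 ^ (d / 4) := rfl
  omega

/-! ### The four conditions -/

section conds

variable {ι : Type} (S : PSys ι) {q : ℕ} {C c : ℝ} {W n₀ : ℕ}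

/-- the inner sum for `g2` -/
theorem inner2 (hP : PHyp S q C c W n₀) {C' : ℝ} (hC' : 0 < C')
    (hH : ∀ x Y N : ℕ, ∑ U ∈ S.UU N, (1 / 2 : ℝ) ^ (cnt S x Y U) ≤
      C' * (q : ℝ) ^ N * (((x : ℝ) + 1) / (((min Y N : ℕ) : ℝ) + 1)) ^ (c / 2))
    {K t : ℝ} (hK : ∀ d : ℕ, (2 * ((d : ℝ) + 1) / ((Yf d : ℝ) + 1)) ^ (c / 2) ≤ K * t ^ d)
    {N : ℕ} (hN : 48 ≤ N) (j : ι) (hj : Yf (S.deg j) < N) :
    ∑ U ∈ S.UU N, (if j ∈ U then (1 / 2 : ℝ) ^ (cnt S (S.deg j) (Yf (S.deg j)) U) else 0) ≤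
      C' * (q : ℝ) ^ N * (1 / (q : ℝ)) ^ (S.deg j) * (K * t ^ (S.deg j)) := by
  have hq0 : (0 : ℝ) < q := by exact_mod_cast (by have := hP.q2; omega : 0 < q)
  set d := S.deg j with hd
  have h2d : 2 * d ≤ N := half_of_yf hN hj
  have h1 := sum_super S (fun U => (1 / 2 : ℝ) ^ (cnt S d (Yf d) U)) (fun U => by positivity) {j} N
    (by rw [dg_singleton]; omega)
  rw [dg_singleton, ← hd] at h1
  have h2 : ∑ U ∈ S.UU N, (if j ∈ U then (1 / 2 : ℝ) ^ (cnt S d (Yf d) U) else 0) =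
      ∑ U ∈ S.UU N, (if {j} ⊆ U then (1 / 2 : ℝ) ^ (cnt S d (Yf d) (U \ {j})) else 0) := by
    refine Finset.sum_congr rfl fun U _ => ?_
    rw [cnt_sdiff S (by omega : ¬ d < S.deg j)]
    simp only [Finset.singleton_subset_iff]
  rw [h2]
  refine h1.trans ((hH d (Yf d) (N - d)).trans ?_)
  have h3 : C' * (q : ℝ) ^ (N - d) = C' * (q : ℝ) ^ N * (1 / (q : ℝ)) ^ d := by
    rw [mul_assoc]
    congr 1
    rw [one_div, inv_pow, ← div_eq_mul_inv, eq_div_iff (by positivity), ← pow_add]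
    congr 1
    omega
  rw [h3]
  apply mul_le_mul_of_nonneg_left _ (by positivity)
  refine le_trans (Real.rpow_le_rpow (by positivity) ?_ (by have := hP.c0; positivity)) (hK d)
  have hy := yf_pos d
  rw [div_le_div_iff₀ (by positivity) (by positivity)]
  have h4 : (Yf d : ℝ) + 1 ≤ 2 * (((min (Yf d) (N - d) : ℕ) : ℝ) + 1) := by
    have h5 : Yf d + 1 ≤ 2 * (min (Yf d) (N - d) + 1) := by omega
    exact_mod_cast h5
  have h6 : 0 ≤ (d : ℝ) + 1 := by positivity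
  nlinarith [mul_le_mul_of_nonneg_left h4 h6]

/-- the sum over the sets which contain `B ∪ V` for a relation `V` -/
theorem rel_sum (hq : 2 ≤ q) {C' : ℝ} (hC' : 0 < C')
    (hc : ∀ N : ℕ, ((S.UU N).card : ℝ) ≤ C' * (q : ℝ) ^ N) {E : Type} [Fintype E] [Zero E]
    (B : Finset ι) (Y N : ℕ) (Rel : Finset ι → E → Prop)
    (hdis : ∀ V e, Rel V e → Disjoint B V) {M : ℝ}
    (hM : ∑ V ∈ (S.le Y).powerset, ∑ e : E,
      (if Rel V e ∧ (V.Nonempty ∨ e ≠ 0) then (1 / (q : ℝ)) ^ (S.dg V) else 0) ≤ M) :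
    ∑ U ∈ S.UU N, ∑ V ∈ (S.le Y).powerset, ∑ e : E,
      (if (Rel V e ∧ (V.Nonempty ∨ e ≠ 0)) ∧ B ∪ V ⊆ U then (1 : ℝ) else 0) ≤
      C' * (q : ℝ) ^ N * (1 / (q : ℝ)) ^ (S.dg B) * M := by
  have hq0 : (0 : ℝ) < q := by exact_mod_cast (by omega : 0 < q)
  refine le_trans ?_ (mul_le_mul_of_nonneg_left hM (by positivity))
  rw [Finset.sum_comm, Finset.mul_sum]
  refine Finset.sum_le_sum fun V _ => ?_
  rw [Finset.sum_comm, Finset.mul_sum]
  refine Finset.sum_le_sum fun e _ => ?_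
  by_cases h : Rel V e ∧ (V.Nonempty ∨ e ≠ 0)
  · rw [if_pos h]
    have h1 : ∑ U ∈ S.UU N, (if (Rel V e ∧ (V.Nonempty ∨ e ≠ 0)) ∧ B ∪ V ⊆ U then (1 : ℝ) else 0) =
        ∑ U ∈ S.UU N, (if B ∪ V ⊆ U then (1 : ℝ) else 0) := by
      refine Finset.sum_congr rfl fun U _ => ?_
      by_cases h2 : B ∪ V ⊆ U
      · rw [if_pos h2, if_pos ⟨h, h2⟩]
      · rw [if_neg h2, if_neg fun h3 => h2 h3.2]
    rw [h1]
    refine (count_super S hq hC' hc (B ∪ V) N).trans (le_of_eq ?_)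
    have h3 : S.dg (B ∪ V) = S.dg B + S.dg V := by
      unfold PSys.dg
      exact Finset.sum_union (hdis V e h.1)
    rw [h3, pow_add]
    ring
  · rw [if_neg h, mul_zero]
    refine le_of_eq (Finset.sum_eq_zero fun U _ => if_neg fun h2 => h h2.1)

/-- the relations for the prime `j`, outside of `j` -/
def RJ {E : Type} (Rel₁ : ι → Finset ι → E → Prop) (j : ι) (V : Finset ι) (e : E) : Prop :=
  j ∉ V ∧ Rel₁ j V e

/-- the sum for `g1` -/
theorem bound1 (hP : PHyp S q C c W n₀) {C' : ℝ} (hC' : 0 < C')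
    (hc : ∀ N : ℕ, ((S.UU N).card : ℝ) ≤ C' * (q : ℝ) ^ N) {E : Type} [Fintype E] [Zero E]
    {Rel₁ : ι → Finset ι → E → Prop} {C₄ : ℕ} {C₅ C₆ : ℝ} (hC₆ : 0 < C₆)
    (r1 : ∀ j V e, j ∉ V → Rel₁ j V e → (V.Nonempty ∨ e ≠ 0) → 2 * S.deg j ≤ S.dg V + C₄)
    (r2 : ∀ j V₂ e n₁, j ∉ V₂ → 2 * S.deg j ≤ n₁ + C₄ →
      (((S.UU n₁).filter (fun V₁ => j ∉ V₁ ∧ Disjoint V₁ V₂ ∧ Rel₁ j (V₁ ∪ V₂) e)).card : ℝ) ≤
        C₅ * (q : ℝ) ^ n₁ / (q : ℝ) ^ (S.deg j))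
    (hrel : ∀ (d Y : ℕ) (Rel : Finset ι → E → Prop), 1 ≤ Y → C₄ < 2 * d →
      (∀ V e, Rel V e → (V.Nonempty ∨ e ≠ 0) → 2 * d ≤ S.dg V + C₄) →
      (∀ V₂ e n₁, 2 * d ≤ n₁ + C₄ →
        (((S.UU n₁).filter (fun V₁ => Disjoint V₁ V₂ ∧ Rel (V₁ ∪ V₂) e)).card : ℝ) ≤
          |C₅| * (q : ℝ) ^ n₁ / (q : ℝ) ^ d) →
      ∑ V ∈ (S.le Y).powerset, ∑ e : E,
        (if Rel V e ∧ (V.Nonempty ∨ e ≠ 0) then (1 / (q : ℝ)) ^ (S.dg V) else 0) ≤
          C₆ * (Y : ℝ) ^ 2 / (q : ℝ) ^ d)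
    {L N : ℕ} (hL : C₄ < L) {r : ℝ} (hr1 : r < 1) {w : ℝ} (w0 : 0 < w) (w1 : w < 1)
    (w4 : w ^ 4 = 1 / 2) (hwr : w ^ 2 ≤ r) :
    ∑ U ∈ S.UU N, ∑ j ∈ (S.le N).filter (fun j => L < S.deg j),
      ∑ V ∈ (S.le (Yf (S.deg j))).powerset, ∑ e : E,
        (if (RJ Rel₁ j V e ∧ (V.Nonempty ∨ e ≠ 0)) ∧ {j} ∪ V ⊆ U then (1 : ℝ) else 0) ≤
      C * (C' * (q : ℝ) ^ N * C₆) * (r ^ L / (1 - r)) := by
  have hq0 : (0 : ℝ) < q := by exact_mod_cast (by have := hP.q2; omega : 0 < q)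
  have hr0 : 0 ≤ r := (sq_nonneg w).trans hwr
  refine le_trans ?_ (regroup_le S hP L N
    (fun d => C' * (q : ℝ) ^ N * (1 / (q : ℝ)) ^ d * (C₆ * (Yf d : ℝ) ^ 2 / (q : ℝ) ^ d))
    (by positivity) hr0 hr1 (fun d _ => by positivity) ?_)
  · rw [Finset.sum_comm]
    refine Finset.sum_le_sum fun j hj => ?_
    have hLj := (Finset.mem_filter.mp hj).2
    have h1 := hrel (S.deg j) (Yf (S.deg j)) (RJ Rel₁ j)
      (Nat.one_le_two_pow) (by omega) (fun V e h hn => r1 j V e h.1 h.2 hn) (by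
        intro V₂ e n₁ hn
        by_cases hj2 : j ∈ V₂
        · have h2 : (S.UU n₁).filter (fun V₁ => Disjoint V₁ V₂ ∧ RJ Rel₁ j (V₁ ∪ V₂) e) = ∅ := by
            refine Finset.filter_eq_empty_iff.mpr fun V₁ _ h => ?_
            exact h.2.1 (Finset.mem_union_right _ hj2)
          rw [h2, Finset.card_empty, Nat.cast_zero]
          positivity
        · refine le_trans ?_ (le_trans (r2 j V₂ e n₁ hj2 hn) ?_)
          · exact_mod_cast Finset.card_le_card fun V₁ hV => by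
              obtain ⟨h3, h4, h5, h6⟩ := Finset.mem_filter.mp hV
              refine Finset.mem_filter.mpr ⟨h3, fun h7 => h5 (Finset.mem_union_left _ h7), h4, h6⟩
          · apply div_le_div_of_nonneg_right _ (by positivity)
            exact mul_le_mul_of_nonneg_right (le_abs_self _) (by positivity))
    have h2 := rel_sum S hP.q2 hC' hc {j} (Yf (S.deg j)) N (RJ Rel₁ j)
      (fun V e h => Finset.disjoint_singleton_left.mpr h.1) h1
    rw [dg_singleton] at h2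
    exact h2
  · intro d _
    have h1 := yf_sq w0 w1 w4 hP.q2 d
    have h2 : (w ^ 2) ^ d ≤ r ^ d := pow_le_pow_left₀ (sq_nonneg w) hwr d
    have h3 : (q : ℝ) ^ d * (C' * (q : ℝ) ^ N * (1 / (q : ℝ)) ^ d *
        (C₆ * (Yf d : ℝ) ^ 2 / (q : ℝ) ^ d)) =
        C' * (q : ℝ) ^ N * C₆ * ((Yf d : ℝ) ^ 2 / (q : ℝ) ^ d) := by
      rw [one_div, inv_pow]
      field_simp
    rw [h3]
    exact mul_le_mul_of_nonneg_left (h1.trans h2) (by positivity)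

/-- the sum for `g1'` -/
theorem bound1' (hP : PHyp S q C c W n₀) {C' : ℝ} (hC' : 0 < C')
    (hc : ∀ N : ℕ, ((S.UU N).card : ℝ) ≤ C' * (q : ℝ) ^ N) {E J : Type} [Fintype E] [Fintype J]
    [Zero E] {Rel₁ : ι → Finset ι → E → Prop} {Rel₀ : ℕ → J → Finset ι → E → Prop}
    {d₀ : ℕ → J → ℕ} {C₄ : ℕ} {C₅ C₆ : ℝ} (hC₆ : 0 < C₆)
    (hR : RHyp S q Rel₁ Rel₀ d₀ C₄ C₅)
    (hrel : ∀ (d Y : ℕ) (Rel : Finset ι → E → Prop), 1 ≤ Y → C₄ < 2 * d →
      (∀ V e, Rel V e → (V.Nonempty ∨ e ≠ 0) → 2 * d ≤ S.dg V + C₄) →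
      (∀ V₂ e n₁, 2 * d ≤ n₁ + C₄ →
        (((S.UU n₁).filter (fun V₁ => Disjoint V₁ V₂ ∧ Rel (V₁ ∪ V₂) e)).card : ℝ) ≤
          |C₅| * (q : ℝ) ^ n₁ / (q : ℝ) ^ d) →
      ∑ V ∈ (S.le Y).powerset, ∑ e : E,
        (if Rel V e ∧ (V.Nonempty ∨ e ≠ 0) then (1 / (q : ℝ)) ^ (S.dg V) else 0) ≤
          C₆ * (Y : ℝ) ^ 2 / (q : ℝ) ^ d)
    {R N : ℕ} (hRC : C₄ < R) {w : ℝ} (w0 : 0 < w) (w1 : w < 1) (w4 : w ^ 4 = 1 / 2) :
    ∑ U ∈ S.UU N, ∑ j : J, ∑ V ∈ (S.le (Yf R)).powerset, ∑ e : E,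
        (if (Rel₀ R j V e ∧ (V.Nonempty ∨ e ≠ 0)) ∧ ∅ ∪ V ⊆ U then (1 : ℝ) else 0) ≤
      (Fintype.card J : ℝ) * (C' * (q : ℝ) ^ N * (C₆ * (w ^ 2) ^ R)) := by
  have hq0 : (0 : ℝ) < q := by exact_mod_cast (by have := hP.q2; omega : 0 < q)
  have hq1 : (1 : ℝ) ≤ q := by exact_mod_cast (by have := hP.q2; omega : 1 ≤ q)
  rw [Finset.sum_comm]
  have h0 : ∀ j ∈ (Finset.univ : Finset J), ∑ U ∈ S.UU N, ∑ V ∈ (S.le (Yf R)).powerset, ∑ e : E,
        (if (Rel₀ R j V e ∧ (V.Nonempty ∨ e ≠ 0)) ∧ ∅ ∪ V ⊆ U then (1 : ℝ) else 0) ≤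
      C' * (q : ℝ) ^ N * (C₆ * (w ^ 2) ^ R) := by
    intro j _
    have hge := hR.ge R j
    have h1 := hrel (d₀ R j) (Yf R) (fun V e => Rel₀ R j V e)
      (Nat.one_le_two_pow) (by omega) (fun V e h hn => hR.r1' R j V e h hn) (by
        intro V₂ e n₁ hn
        refine (hR.r2' R j V₂ e n₁ hn).trans ?_
        apply div_le_div_of_nonneg_right _ (by positivity)
        exact mul_le_mul_of_nonneg_right (le_abs_self _) (by positivity))
    have h2 := rel_sum S hP.q2 hC' hc ∅ (Yf R) N (fun V e => Rel₀ R j V e)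
      (fun V e h => Finset.disjoint_empty_left V) h1
    have h3 : S.dg (∅ : Finset ι) = 0 := by
      unfold PSys.dg
      exact Finset.sum_empty
    rw [h3, pow_zero, mul_one] at h2
    refine h2.trans (mul_le_mul_of_nonneg_left ?_ (by positivity))
    have h4 : (q : ℝ) ^ R ≤ (q : ℝ) ^ (d₀ R j) := pow_le_pow_right₀ hq1 hge
    calc C₆ * (Yf R : ℝ) ^ 2 / (q : ℝ) ^ (d₀ R j) ≤ C₆ * (Yf R : ℝ) ^ 2 / (q : ℝ) ^ R :=
          div_le_div_of_nonneg_left (by positivity) (by positivity) h4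
      _ = C₆ * ((Yf R : ℝ) ^ 2 / (q : ℝ) ^ R) := by ring
      _ ≤ C₆ * (w ^ 2) ^ R := mul_le_mul_of_nonneg_left (yf_sq w0 w1 w4 hP.q2 R) hC₆.le
  refine (Finset.sum_le_sum h0).trans (le_of_eq ?_)
  rw [Finset.sum_const, nsmul_eq_mul, Finset.card_univ]

/-- the first part of the sum for `g2` -/
theorem bound2 (hP : PHyp S q C c W n₀) {C' : ℝ} (hC' : 0 < C')
    (hH : ∀ x Y N : ℕ, ∑ U ∈ S.UU N, (1 / 2 : ℝ) ^ (cnt S x Y U) ≤
      C' * (q : ℝ) ^ N * (((x : ℝ) + 1) / (((min Y N : ℕ) : ℝ) + 1)) ^ (c / 2))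
    {K t : ℝ} (hK0 : 0 < K) (ht0 : 0 < t)
    (hK : ∀ d : ℕ, (2 * ((d : ℝ) + 1) / ((Yf d : ℝ) + 1)) ^ (c / 2) ≤ K * t ^ d)
    {L N : ℕ} (hN : 48 ≤ N) {r : ℝ} (hr1 : r < 1) (htr : t ≤ r) :
    ∑ U ∈ (S.UU N).filter (fun U => ∀ p ∈ U, L < S.deg p),
      ∑ j ∈ U.filter (fun j => Yf (S.deg j) < S.dg U),
        (1 / 2 : ℝ) ^ (cnt S (S.deg j) (Yf (S.deg j)) U) ≤
      C * (C' * (q : ℝ) ^ N * K) * (r ^ L / (1 - r)) := by
  have hq0 : (0 : ℝ) < q := by exact_mod_cast (by have := hP.q2; omega : 0 < q)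
  have hr0 : 0 ≤ r := ht0.le.trans htr
  refine le_trans ?_ (regroup_le S hP L N
    (fun d => C' * (q : ℝ) ^ N * (1 / (q : ℝ)) ^ d * (K * t ^ d))
    (by positivity) hr0 hr1 (fun d _ => by positivity) ?_)
  · have h1 : ∀ U ∈ (S.UU N).filter (fun U => ∀ p ∈ U, L < S.deg p),
        ∑ j ∈ U.filter (fun j => Yf (S.deg j) < S.dg U),
          (1 / 2 : ℝ) ^ (cnt S (S.deg j) (Yf (S.deg j)) U) ≤
        ∑ j ∈ (S.le N).filter (fun j => L < S.deg j), (if Yf (S.deg j) < N then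
          (if j ∈ U then (1 / 2 : ℝ) ^ (cnt S (S.deg j) (Yf (S.deg j)) U) else 0) else 0) := by
      intro U hU
      obtain ⟨hU1, hU2⟩ := Finset.mem_filter.mp hU
      have hdg := (mem_UU S).mp hU1
      have h2 : ∑ j ∈ U.filter (fun j => Yf (S.deg j) < S.dg U),
          (1 / 2 : ℝ) ^ (cnt S (S.deg j) (Yf (S.deg j)) U) =
          ∑ j ∈ U.filter (fun j => Yf (S.deg j) < S.dg U), (if Yf (S.deg j) < N then
          (if j ∈ U then (1 / 2 : ℝ) ^ (cnt S (S.deg j) (Yf (S.deg j)) U) else 0) else 0) := by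
        refine Finset.sum_congr rfl fun j hj => ?_
        obtain ⟨hj1, hj2⟩ := Finset.mem_filter.mp hj
        rw [hdg] at hj2
        rw [if_pos hj2, if_pos hj1]
      rw [h2]
      refine Finset.sum_le_sum_of_subset_of_nonneg ?_ fun j _ _ => ?_
      · intro j hj
        obtain ⟨hj1, hj2⟩ := Finset.mem_filter.mp hj
        refine Finset.mem_filter.mpr ⟨?_, hU2 j hj1⟩
        rw [S.mem_le, ← hdg]
        exact deg_le_dg S hj1
      · split_ifs <;> positivity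
    refine (Finset.sum_le_sum h1).trans ?_
    refine le_trans (Finset.sum_le_sum_of_subset_of_nonneg (Finset.filter_subset _ _)
      fun U _ _ => Finset.sum_nonneg fun j _ => by split_ifs <;> positivity) ?_
    rw [Finset.sum_comm]
    refine Finset.sum_le_sum fun j _ => ?_
    by_cases hj : Yf (S.deg j) < N
    · simp only [if_pos hj]
      exact inner2 S hP hC' hH hK hN j hj
    · simp only [if_neg hj, Finset.sum_const_zero]
      positivity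
  · intro d _
    have h3 : (q : ℝ) ^ d * (C' * (q : ℝ) ^ N * (1 / (q : ℝ)) ^ d * (K * t ^ d)) =
        C' * (q : ℝ) ^ N * K * t ^ d := by
      rw [one_div, inv_pow]
      field_simp
    rw [h3]
    exact mul_le_mul_of_nonneg_left (pow_le_pow_left₀ ht0.le htr d) (by positivity)

/-- the second part of the sum for `g2` -/
theorem bound2' (hP : PHyp S q C c W n₀) {C' : ℝ} (hC' : 0 < C')
    (hH : ∀ x Y N : ℕ, ∑ U ∈ S.UU N, (1 / 2 : ℝ) ^ (cnt S x Y U) ≤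
      C' * (q : ℝ) ^ N * (((x : ℝ) + 1) / (((min Y N : ℕ) : ℝ) + 1)) ^ (c / 2))
    {K t : ℝ}
    (hK : ∀ d : ℕ, (2 * ((d : ℝ) + 1) / ((Yf d : ℝ) + 1)) ^ (c / 2) ≤ K * t ^ d)
    {L R N : ℕ} (hLR : L ≤ R) (hN : Yf R ≤ N) :
    ∑ U ∈ (S.UU N).filter (fun U => ∀ p ∈ U, L < S.deg p), (1 / 2 : ℝ) ^ (cnt S 0 (Yf R) U) ≤
      C' * (q : ℝ) ^ N * (K * t ^ R) := by
  have hq0 : (0 : ℝ) < q := by exact_mod_cast (by have := hP.q2; omega : 0 < q)
  have h1 : ∑ U ∈ (S.UU N).filter (fun U => ∀ p ∈ U, L < S.deg p),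
      (1 / 2 : ℝ) ^ (cnt S 0 (Yf R) U) =
      ∑ U ∈ (S.UU N).filter (fun U => ∀ p ∈ U, L < S.deg p), (1 / 2 : ℝ) ^ (cnt S L (Yf R) U) := by
    refine Finset.sum_congr rfl fun U hU => ?_
    rw [cnt_rough S (Finset.mem_filter.mp hU).2]
  rw [h1]
  refine (Finset.sum_le_sum_of_subset_of_nonneg (Finset.filter_subset _ _)
    fun U _ _ => by positivity).trans ((hH L (Yf R) N).trans ?_)
  rw [min_eq_left hN]
  apply mul_le_mul_of_nonneg_left _ (by positivity)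
  refine le_trans (Real.rpow_le_rpow (by positivity) ?_ (by have := hP.c0; positivity)) (hK R)
  have hy := yf_pos R
  apply div_le_div_of_nonneg_right _ (by positivity)
  have h2 : (L : ℝ) ≤ R := by exact_mod_cast hLR
  have h3 : (0 : ℝ) ≤ R := Nat.cast_nonneg _
  linarith

/-- the sum for `g4` -/
theorem bound4 (hP : PHyp S q C c W n₀) {C' : ℝ} (hC' : 0 < C')
    (hc : ∀ N : ℕ, ((S.UU N).card : ℝ) ≤ C' * (q : ℝ) ^ N)
    {L N : ℕ} {r : ℝ} (hr1 : r < 1) (hr2 : 1 / 2 ≤ r) :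
    ∑ U ∈ (S.UU N).filter (fun U => ∀ p ∈ U, L < S.deg p), ∑ p ∈ U, (1 / (q : ℝ)) ^ (S.deg p) ≤
      C * (C' * (q : ℝ) ^ N) * (r ^ L / (1 - r)) := by
  have hq0 : (0 : ℝ) < q := by exact_mod_cast (by have := hP.q2; omega : 0 < q)
  have hq2 : (2 : ℝ) ≤ q := by exact_mod_cast hP.q2
  have hr0 : 0 ≤ r := by linarith
  refine le_trans ?_ (regroup_le S hP L N
    (fun d => (1 / (q : ℝ)) ^ d * (C' * (q : ℝ) ^ N * (1 / (q : ℝ)) ^ d))
    (by positivity) hr0 hr1 (fun d _ => by positivity) ?_)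
  · have h1 : ∀ U ∈ (S.UU N).filter (fun U => ∀ p ∈ U, L < S.deg p),
        ∑ p ∈ U, (1 / (q : ℝ)) ^ (S.deg p) ≤
        ∑ j ∈ (S.le N).filter (fun j => L < S.deg j),
          (1 / (q : ℝ)) ^ (S.deg j) * (if {j} ⊆ U then (1 : ℝ) else 0) := by
      intro U hU
      obtain ⟨hU1, hU2⟩ := Finset.mem_filter.mp hU
      have hdg := (mem_UU S).mp hU1
      have h2 : ∑ p ∈ U, (1 / (q : ℝ)) ^ (S.deg p) =
          ∑ j ∈ U, (1 / (q : ℝ)) ^ (S.deg j) * (if {j} ⊆ U then (1 : ℝ) else 0) := by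
        refine Finset.sum_congr rfl fun j hj => ?_
        rw [if_pos (Finset.singleton_subset_iff.mpr hj), mul_one]
      rw [h2]
      refine Finset.sum_le_sum_of_subset_of_nonneg ?_ fun j _ _ => ?_
      · intro j hj1
        refine Finset.mem_filter.mpr ⟨?_, hU2 j hj1⟩
        rw [S.mem_le, ← hdg]
        exact deg_le_dg S hj1
      · split_ifs <;> positivity
    refine (Finset.sum_le_sum h1).trans ?_
    refine le_trans (Finset.sum_le_sum_of_subset_of_nonneg (Finset.filter_subset _ _)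
      fun U _ _ => Finset.sum_nonneg fun j _ => by split_ifs <;> positivity) ?_
    rw [Finset.sum_comm]
    refine Finset.sum_le_sum fun j _ => ?_
    rw [← Finset.mul_sum]
    apply mul_le_mul_of_nonneg_left _ (by positivity)
    have h3 := count_super S hP.q2 hC' hc {j} N
    rw [dg_singleton] at h3
    exact h3
  · intro d _
    have h3 : (q : ℝ) ^ d * ((1 / (q : ℝ)) ^ d * (C' * (q : ℝ) ^ N * (1 / (q : ℝ)) ^ d)) =
        C' * (q : ℝ) ^ N * (1 / (q : ℝ)) ^ d := by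
      rw [one_div, inv_pow]
      field_simp
    rw [h3]
    apply mul_le_mul_of_nonneg_left _ (by positivity)
    refine (pow_le_pow_left₀ (by positivity) ?_ d).trans (pow_le_pow_left₀ (by norm_num) hr2 d)
    exact one_div_le_one_div_of_le (by norm_num) hq2

/-- every rough set is good or violates one of the conditions -/
theorem pointwise {E J : Type} [Fintype E] [Fintype J] [Zero E]
    {Rel₁ : ι → Finset ι → E → Prop} {Rel₀ : ℕ → J → Finset ι → E → Prop} {L R N : ℕ}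
    (hq : 2 ≤ q) {U : Finset ι} (hU : U ∈ (S.UU N).filter (fun U => ∀ p ∈ U, L < S.deg p)) :
    (1 : ℝ) ≤ (if GoodU S q Rel₁ Rel₀ L R U then (1 : ℝ) else 0) +
      (∑ j ∈ (S.le N).filter (fun j => L < S.deg j),
        ∑ V ∈ (S.le (Yf (S.deg j))).powerset, ∑ e : E,
          (if (RJ Rel₁ j V e ∧ (V.Nonempty ∨ e ≠ 0)) ∧ {j} ∪ V ⊆ U then (1 : ℝ) else 0)) +
      (∑ j : J, ∑ V ∈ (S.le (Yf R)).powerset, ∑ e : E,
        (if (Rel₀ R j V e ∧ (V.Nonempty ∨ e ≠ 0)) ∧ ∅ ∪ V ⊆ U then (1 : ℝ) else 0)) +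
      4 * (∑ j ∈ U.filter (fun j => Yf (S.deg j) < S.dg U),
          (1 / 2 : ℝ) ^ (cnt S (S.deg j) (Yf (S.deg j)) U) +
        (Fintype.card J : ℝ) * (1 / 2 : ℝ) ^ (cnt S 0 (Yf R) U)) +
      16 * ∑ p ∈ U, (1 / (q : ℝ)) ^ (S.deg p) := by
  obtain ⟨hU1, hU2⟩ := Finset.mem_filter.mp hU
  have hdg := (mem_UU S).mp hU1
  have hq0 : (0 : ℝ) < q := by exact_mod_cast (by omega : 0 < q)
  have n1 : ∀ (j : ι) (V : Finset ι) (e : E),
      (0 : ℝ) ≤ (if (RJ Rel₁ j V e ∧ (V.Nonempty ∨ e ≠ 0)) ∧ {j} ∪ V ⊆ U then (1 : ℝ) else 0) := by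
    intro j V e
    split_ifs <;> norm_num
  have n2 : ∀ (j : J) (V : Finset ι) (e : E),
      (0 : ℝ) ≤ (if (Rel₀ R j V e ∧ (V.Nonempty ∨ e ≠ 0)) ∧ ∅ ∪ V ⊆ U then (1 : ℝ) else 0) := by
    intro j V e
    split_ifs <;> norm_num
  have m1 : 0 ≤ ∑ j ∈ (S.le N).filter (fun j => L < S.deg j),
      ∑ V ∈ (S.le (Yf (S.deg j))).powerset, ∑ e : E,
        (if (RJ Rel₁ j V e ∧ (V.Nonempty ∨ e ≠ 0)) ∧ {j} ∪ V ⊆ U then (1 : ℝ) else 0) :=
    Finset.sum_nonneg fun j _ => Finset.sum_nonneg fun V _ => Finset.sum_nonneg fun e _ => n1 j V e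
  have m2 : 0 ≤ ∑ j : J, ∑ V ∈ (S.le (Yf R)).powerset, ∑ e : E,
      (if (Rel₀ R j V e ∧ (V.Nonempty ∨ e ≠ 0)) ∧ ∅ ∪ V ⊆ U then (1 : ℝ) else 0) :=
    Finset.sum_nonneg fun j _ => Finset.sum_nonneg fun V _ => Finset.sum_nonneg fun e _ => n2 j V e
  have m3 : 0 ≤ ∑ j ∈ U.filter (fun j => Yf (S.deg j) < S.dg U),
      (1 / 2 : ℝ) ^ (cnt S (S.deg j) (Yf (S.deg j)) U) +
      (Fintype.card J : ℝ) * (1 / 2 : ℝ) ^ (cnt S 0 (Yf R) U) := by positivity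
  have m4 : 0 ≤ ∑ p ∈ U, (1 / (q : ℝ)) ^ (S.deg p) := by positivity
  by_cases hgood : GoodU S q Rel₁ Rel₀ L R U
  · rw [if_pos hgood]
    linarith
  rw [if_neg hgood]
  by_cases h2 : ∑ j ∈ U.filter (fun j => Yf (S.deg j) < S.dg U),
      (1 / 2 : ℝ) ^ (cnt S (S.deg j) (Yf (S.deg j)) U) +
      (Fintype.card J : ℝ) * (1 / 2 : ℝ) ^ (cnt S 0 (Yf R) U) ≤ 1 / 4
  swap
  · rw [not_le] at h2
    linarith
  by_cases h4 : ∑ p ∈ U, (1 / (q : ℝ)) ^ (S.deg p) ≤ 1 / 16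
  swap
  · rw [not_le] at h4
    linarith
  by_cases h1 : ∀ j ∈ U, ∀ V ⊆ U, j ∉ V → (∀ p ∈ V, S.deg p ≤ Yf (S.deg j)) →
    ∀ e, (V.Nonempty ∨ e ≠ 0) → ¬ Rel₁ j V e
  swap
  · push Not at h1
    obtain ⟨j, hj, V, hVU, hjV, hV, e, he, hrel⟩ := h1
    have hjm : j ∈ (S.le N).filter (fun j => L < S.deg j) := by
      refine Finset.mem_filter.mpr ⟨?_, hU2 j hj⟩
      rw [S.mem_le, ← hdg]
      exact deg_le_dg S hj
    have hVm : V ∈ (S.le (Yf (S.deg j))).powerset := by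
      rw [Finset.mem_powerset]
      intro p hp
      rw [S.mem_le]
      exact hV p hp
    have k1 := Finset.single_le_sum (f := fun j => ∑ V ∈ (S.le (Yf (S.deg j))).powerset, ∑ e : E,
        (if (RJ Rel₁ j V e ∧ (V.Nonempty ∨ e ≠ 0)) ∧ {j} ∪ V ⊆ U then (1 : ℝ) else 0))
      (fun j _ => Finset.sum_nonneg fun V _ => Finset.sum_nonneg fun e _ => n1 j V e) hjm
    have k2 := Finset.single_le_sum (f := fun V => ∑ e : E,
        (if (RJ Rel₁ j V e ∧ (V.Nonempty ∨ e ≠ 0)) ∧ {j} ∪ V ⊆ U then (1 : ℝ) else 0))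
      (fun V _ => Finset.sum_nonneg fun e _ => n1 j V e) hVm
    have k3 := Finset.single_le_sum (f := fun e : E =>
        (if (RJ Rel₁ j V e ∧ (V.Nonempty ∨ e ≠ 0)) ∧ {j} ∪ V ⊆ U then (1 : ℝ) else 0))
      (fun e _ => n1 j V e) (Finset.mem_univ e)
    have k4 : (if (RJ Rel₁ j V e ∧ (V.Nonempty ∨ e ≠ 0)) ∧ {j} ∪ V ⊆ U then (1 : ℝ) else 0) = 1 := by
      refine if_pos ⟨⟨⟨hjV, hrel⟩, ?_⟩, ?_⟩
      · rcases he with he | he
        · exact Or.inl he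
        · exact Or.inr he
      · exact Finset.union_subset (Finset.singleton_subset_iff.mpr hj) hVU
    have k5 : (1 : ℝ) ≤ ∑ j ∈ (S.le N).filter (fun j => L < S.deg j),
      ∑ V ∈ (S.le (Yf (S.deg j))).powerset, ∑ e : E,
        (if (RJ Rel₁ j V e ∧ (V.Nonempty ∨ e ≠ 0)) ∧ {j} ∪ V ⊆ U then (1 : ℝ) else 0) := by
      refine le_trans ?_ k1
      refine le_trans ?_ k2
      refine le_trans ?_ k3
      exact le_of_eq k4.symm
    linarith
  by_cases h1' : ∀ j : J, ∀ V ⊆ U, (∀ p ∈ V, S.deg p ≤ Yf R) →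
    ∀ e, (V.Nonempty ∨ e ≠ 0) → ¬ Rel₀ R j V e
  swap
  · push Not at h1'
    obtain ⟨j, V, hVU, hV, e, he, hrel⟩ := h1'
    have hVm : V ∈ (S.le (Yf R)).powerset := by
      rw [Finset.mem_powerset]
      intro p hp
      rw [S.mem_le]
      exact hV p hp
    have k1 := Finset.single_le_sum (f := fun j : J => ∑ V ∈ (S.le (Yf R)).powerset, ∑ e : E,
        (if (Rel₀ R j V e ∧ (V.Nonempty ∨ e ≠ 0)) ∧ ∅ ∪ V ⊆ U then (1 : ℝ) else 0))
      (fun j _ => Finset.sum_nonneg fun V _ => Finset.sum_nonneg fun e _ => n2 j V e)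
      (Finset.mem_univ j)
    have k2 := Finset.single_le_sum (f := fun V => ∑ e : E,
        (if (Rel₀ R j V e ∧ (V.Nonempty ∨ e ≠ 0)) ∧ ∅ ∪ V ⊆ U then (1 : ℝ) else 0))
      (fun V _ => Finset.sum_nonneg fun e _ => n2 j V e) hVm
    have k3 := Finset.single_le_sum (f := fun e : E =>
        (if (Rel₀ R j V e ∧ (V.Nonempty ∨ e ≠ 0)) ∧ ∅ ∪ V ⊆ U then (1 : ℝ) else 0))
      (fun e _ => n2 j V e) (Finset.mem_univ e)
    have k4 : (if (Rel₀ R j V e ∧ (V.Nonempty ∨ e ≠ 0)) ∧ ∅ ∪ V ⊆ U then (1 : ℝ) else 0) = 1 := by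
      refine if_pos ⟨⟨hrel, ?_⟩, ?_⟩
      · rcases he with he | he
        · exact Or.inl he
        · exact Or.inr he
      · exact Finset.union_subset (Finset.empty_subset _) hVU
    have k5 : (1 : ℝ) ≤ ∑ j : J, ∑ V ∈ (S.le (Yf R)).powerset, ∑ e : E,
        (if (Rel₀ R j V e ∧ (V.Nonempty ∨ e ≠ 0)) ∧ ∅ ∪ V ⊆ U then (1 : ℝ) else 0) := by
      refine le_trans ?_ k1
      refine le_trans ?_ k2
      refine le_trans ?_ k3
      exact le_of_eq k4.symm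
    linarith
  exact absurd ⟨hU2, h1, h1', h2, h4⟩ hgood

end conds

/-- There are many good sets. -/
theorem gc : S_HAL → S_REL → S_RGH → S_GC := by
  intro hHAL hREL hRGH ι S q C c W n₀ hP E J _ _ _ Rel₁ Rel₀ d₀ C₄ C₅ hR L₀ R₀
  obtain ⟨C', hC', hH⟩ := hHAL ι S q C c W n₀ hP
  obtain ⟨C₆, hC₆, hrel⟩ := hREL ι S q C c W n₀ hP C₄ |C₅| E
  obtain ⟨K, t, hK0, ht0, ht1, hK⟩ := ratio_small hP.c0
  obtain ⟨w, w0, w1, w4⟩ := exists_root
  have hq2 : (2 : ℝ) ≤ q := by exact_mod_cast hP.q2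
  have hq0 : (0 : ℝ) < q := by linarith
  have hcard : ∀ N : ℕ, ((S.UU N).card : ℝ) ≤ C' * (q : ℝ) ^ N := by
    intro N
    have h1 := hH 0 0 N
    have h2 : ∀ U ∈ S.UU N, (1 / 2 : ℝ) ^ (cnt S 0 0 U) = 1 := by
      intro U _
      have h3 : cnt S 0 0 U = 0 := by
        unfold cnt
        rw [Finset.card_eq_zero, Finset.filter_eq_empty_iff]
        intro p _ h
        omega
      rw [h3, pow_zero]
    rw [Finset.sum_congr rfl h2, Finset.sum_const, nsmul_eq_mul, mul_one] at h1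
    refine h1.trans (le_of_eq ?_)
    have h4 : (((0 : ℕ) : ℝ) + 1) / (((min 0 N : ℕ) : ℝ) + 1) = 1 := by simp
    rw [h4, Real.one_rpow, mul_one]
  have hw2 : w ^ 2 < 1 := by nlinarith
  set r : ℝ := max (w ^ 2) (max t (1 / 2)) with hr
  have hr1 : r < 1 := max_lt hw2 (max_lt ht1 (by norm_num))
  have hwr : w ^ 2 ≤ r := le_max_left _ _
  have htr : t ≤ r := (le_max_left _ _).trans (le_max_right _ _)
  have hhr : 1 / 2 ≤ r := (le_max_right _ _).trans (le_max_right _ _)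
  have hr0 : 0 ≤ r := by linarith
  have h1r : 0 < 1 - r := by linarith
  have hC : 1 ≤ C := hP.C1
  have hc0 : 0 < c := hP.c0
  set A₁ : ℝ := C * C' * (C₆ + 4 * K + 16) / (1 - r) with hA₁
  have hA₁0 : 0 < A₁ := by
    rw [hA₁]
    positivity
  -- choice of `L`
  have hlim1 : Filter.Tendsto (fun n : ℕ => (n : ℝ) ^ 1 * r ^ n) Filter.atTop (nhds 0) :=
    tendsto_pow_const_mul_const_pow_of_abs_lt_one 1 (by rwa [abs_of_nonneg hr0])
  have hε : 0 < c / (4 * Real.exp C) / A₁ := by positivity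
  obtain ⟨L, hL1, hL2⟩ : ∃ L : ℕ, L₀ + C₄ + 1 ≤ L ∧ (L : ℝ) ^ 1 * r ^ L < c / (4 * Real.exp C) / A₁ := by
    have h1 := (hlim1.eventually_lt_const hε).and (Filter.eventually_ge_atTop (L₀ + C₄ + 1))
    obtain ⟨L, h2, h3⟩ := h1.exists
    exact ⟨L, h3, h2⟩
  have hLpos : (0 : ℝ) < L := by exact_mod_cast (by omega : 0 < L)
  set κ : ℝ := c / (Real.exp C * L) with hκ
  have hκ0 : 0 < κ := by
    rw [hκ]
    positivity
  have hL3 : A₁ * r ^ L ≤ κ / 4 := by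
    rw [pow_one, lt_div_iff₀ hA₁0] at hL2
    rw [hκ, div_div, le_div_iff₀ (by positivity)]
    rw [lt_div_iff₀ (by positivity)] at hL2
    nlinarith
  -- choice of `R`
  set A₂ : ℝ := (Fintype.card J : ℝ) * C' * (C₆ + 4 * K) with hA₂
  have hA₂0 : 0 ≤ A₂ := by
    rw [hA₂]
    positivity
  have hlim2 : Filter.Tendsto (fun n : ℕ => A₂ * r ^ n) Filter.atTop (nhds (A₂ * 0)) :=
    (tendsto_pow_atTop_nhds_zero_of_lt_one hr0 hr1).const_mul A₂
  rw [mul_zero] at hlim2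
  obtain ⟨R, hR1, hR2⟩ : ∃ R : ℕ, L + R₀ + C₄ + 1 ≤ R ∧ A₂ * r ^ R < κ / 4 := by
    have h1 := (hlim2.eventually_lt_const (by positivity : 0 < κ / 4)).and
      (Filter.eventually_ge_atTop (L + R₀ + C₄ + 1))
    obtain ⟨R, h2, h3⟩ := h1.exists
    exact ⟨R, h3, h2⟩
  obtain ⟨W', n₁, hrough⟩ := hRGH ι S q C c W n₀ hP L (by omega)
  refine ⟨L, R, by omega, by omega, κ / 2, by positivity, W', n₁ + W' + 48 + Yf R, fun n hn => ?_⟩
  obtain ⟨N, hN1, hN2, hN3⟩ := hrough n (by omega)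
  refine ⟨N, hN1, hN2, ?_⟩
  have hN48 : 48 ≤ N := by omega
  have hNY : Yf R ≤ N := by omega
  set A : Finset (Finset ι) := (S.UU N).filter (fun U => ∀ p ∈ U, L < S.deg p) with hA
  have hAsub : A ⊆ S.UU N := Finset.filter_subset _ _
  have hQN : 0 < (q : ℝ) ^ N := by positivity
  -- the four sums
  have b1 := bound1 S hP hC' hcard hC₆ hR.r1 hR.r2 hrel (L := L) (N := N) (by omega) hr1 w0 w1 w4 hwr
  have b1' := bound1' S hP hC' hcard hC₆ hR hrel (R := R) (N := N) (by omega) w0 w1 w4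
  have b2 := bound2 S hP hC' hH hK0 ht0 hK (L := L) hN48 hr1 htr
  have b2' := bound2' S hP hC' hH hK (L := L) (R := R) (by omega) hNY
  have b4 := bound4 S hP hC' hcard (L := L) (N := N) hr1 hhr
  have hsum := Finset.sum_le_sum (s := A) fun U hU =>
    pointwise S (Rel₁ := Rel₁) (Rel₀ := Rel₀) (L := L) (R := R) (N := N) hP.q2 hU
  rw [Finset.sum_const, nsmul_eq_mul, mul_one] at hsum
  simp only [Finset.sum_add_distrib, ← Finset.mul_sum] at hsum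
  have g1 : ∑ U ∈ A, (if GoodU S q Rel₁ Rel₀ L R U then (1 : ℝ) else 0) ≤
      (((S.UU N).filter (fun U => GoodU S q Rel₁ Rel₀ L R U)).card : ℝ) := by
    rw [← Finset.sum_filter, Finset.sum_const, nsmul_eq_mul, mul_one]
    exact_mod_cast Finset.card_le_card (Finset.filter_subset_filter _ hAsub)
  have g2 : ∑ U ∈ A, ∑ j ∈ (S.le N).filter (fun j => L < S.deg j),
      ∑ V ∈ (S.le (Yf (S.deg j))).powerset, ∑ e : E,
        (if (RJ Rel₁ j V e ∧ (V.Nonempty ∨ e ≠ 0)) ∧ {j} ∪ V ⊆ U then (1 : ℝ) else 0) ≤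
      C * (C' * (q : ℝ) ^ N * C₆) * (r ^ L / (1 - r)) := by
    refine (Finset.sum_le_sum_of_subset_of_nonneg hAsub fun U _ _ => ?_).trans b1
    exact Finset.sum_nonneg fun j _ => Finset.sum_nonneg fun V _ => Finset.sum_nonneg fun e _ => by
      split_ifs <;> norm_num
  have g3 : ∑ U ∈ A, ∑ j : J, ∑ V ∈ (S.le (Yf R)).powerset, ∑ e : E,
        (if (Rel₀ R j V e ∧ (V.Nonempty ∨ e ≠ 0)) ∧ ∅ ∪ V ⊆ U then (1 : ℝ) else 0) ≤
      (Fintype.card J : ℝ) * (C' * (q : ℝ) ^ N * (C₆ * (w ^ 2) ^ R)) := by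
    refine (Finset.sum_le_sum_of_subset_of_nonneg hAsub fun U _ _ => ?_).trans b1'
    exact Finset.sum_nonneg fun j _ => Finset.sum_nonneg fun V _ => Finset.sum_nonneg fun e _ => by
      split_ifs <;> norm_num
  have hJ0 : (0 : ℝ) ≤ (Fintype.card J : ℝ) := Nat.cast_nonneg _
  have hwR : (w ^ 2) ^ R ≤ r ^ R := pow_le_pow_left₀ (sq_nonneg w) hwr R
  have htR : t ^ R ≤ r ^ R := pow_le_pow_left₀ ht0.le htr R
  have e1 : C * (C' * (q : ℝ) ^ N * C₆) * (r ^ L / (1 - r)) +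
      4 * (C * (C' * (q : ℝ) ^ N * K) * (r ^ L / (1 - r))) +
      16 * (C * (C' * (q : ℝ) ^ N) * (r ^ L / (1 - r))) = (A₁ * r ^ L) * (q : ℝ) ^ N := by
    rw [hA₁]
    ring
  have e2 : (Fintype.card J : ℝ) * (C' * (q : ℝ) ^ N * (C₆ * (w ^ 2) ^ R)) +
      4 * ((Fintype.card J : ℝ) * (C' * (q : ℝ) ^ N * (K * t ^ R))) ≤ (A₂ * r ^ R) * (q : ℝ) ^ N := by
    have h1 : (Fintype.card J : ℝ) * (C' * (q : ℝ) ^ N * (C₆ * (w ^ 2) ^ R)) ≤
        (Fintype.card J : ℝ) * (C' * (q : ℝ) ^ N * (C₆ * r ^ R)) := by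
      gcongr
    have h2 : (Fintype.card J : ℝ) * (C' * (q : ℝ) ^ N * (K * t ^ R)) ≤
        (Fintype.card J : ℝ) * (C' * (q : ℝ) ^ N * (K * r ^ R)) := by
      gcongr
    have h3 : (A₂ * r ^ R) * (q : ℝ) ^ N =
        (Fintype.card J : ℝ) * (C' * (q : ℝ) ^ N * (C₆ * r ^ R)) +
        4 * ((Fintype.card J : ℝ) * (C' * (q : ℝ) ^ N * (K * r ^ R))) := by
      rw [hA₂]
      ring
    rw [h3]
    linarith
  have e3 : (A₁ * r ^ L) * (q : ℝ) ^ N ≤ κ / 4 * (q : ℝ) ^ N :=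
    mul_le_mul_of_nonneg_right hL3 hQN.le
  have e4 : (A₂ * r ^ R) * (q : ℝ) ^ N ≤ κ / 4 * (q : ℝ) ^ N :=
    mul_le_mul_of_nonneg_right hR2.le hQN.le
  have e5 : (Fintype.card J : ℝ) * ∑ U ∈ A, (1 / 2 : ℝ) ^ (cnt S 0 (Yf R) U) ≤
      (Fintype.card J : ℝ) * (C' * (q : ℝ) ^ N * (K * t ^ R)) :=
    mul_le_mul_of_nonneg_left b2' hJ0
  have e6 : κ * (q : ℝ) ^ N ≤ (A.card : ℝ) := hN3
  linarith

end Pool.Agent.H467.PT.Gc
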