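import Pool.Agent.H467.PT.Spec

/-!
# Hall's inequality for finite sets of primes
-/

set_option autoImplicit false
set_option linter.all false

open Finset
open scoped Classical

namespace Pool.Agent.H467.PT.Hal

variable {ι : Type} (S : PSys ι)

/-- the weight of a prime -/
noncomputable def w (x Y : ℕ) (l : ℕ) : ℝ := if x < l ∧ l ≤ Y then 1 / 2 else 1

lemma w_nonneg (x Y l : ℕ) : 0 ≤ w x Y l := by
  unfold w; split_ifs <;> norm_num

lemma w_le_one (x Y l : ℕ) : w x Y l ≤ 1 := by
  unfold w; split_ifs <;> norm_num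

/-- the weight of a set of primes -/
noncomputable def f (x Y : ℕ) (U : Finset ι) : ℝ := ∏ p ∈ U, w x Y (S.deg p)

lemma f_nonneg (x Y : ℕ) (U : Finset ι) : 0 ≤ f S x Y U :=
  Finset.prod_nonneg (fun _ _ => w_nonneg _ _ _)

lemma f_eq (x Y : ℕ) (U : Finset ι) : f S x Y U = (1 / 2 : ℝ) ^ (cnt S x Y U) := by
  unfold f w cnt
  rw [Finset.prod_ite]
  simp

/-- the sum over the sets of degree N -/
noncomputable def F (x Y N : ℕ) : ℝ := ∑ U ∈ S.UU N, f S x Y U

lemma F_nonneg (x Y N : ℕ) : 0 ≤ F S x Y N := Finset.sum_nonneg (fun _ _ => f_nonneg _ _ _ _)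

lemma mem_UU (N : ℕ) (U : Finset ι) : U ∈ S.UU N ↔ S.dg U = N := by
  unfold PSys.UU
  rw [Finset.mem_filter, Finset.mem_powerset]
  constructor
  · exact fun h => h.2
  · intro h
    refine ⟨fun p hp => ?_, h⟩
    rw [S.mem_le, ← h]
    exact Finset.single_le_sum (f := S.deg) (fun _ _ => Nat.zero_le _) hp

lemma step_A (x Y N : ℕ) :
    (N : ℝ) * F S x Y N ≤ ∑ p ∈ S.le N, (S.deg p : ℝ) * F S x Y (N - S.deg p) := by
  have h1 : (N : ℝ) * F S x Y N = ∑ U ∈ S.UU N, ∑ p ∈ U, (S.deg p : ℝ) * f S x Y U := by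
    unfold F
    rw [Finset.mul_sum]
    refine Finset.sum_congr rfl (fun U hU => ?_)
    rw [← Finset.sum_mul]
    rw [mem_UU] at hU
    rw [← hU]
    unfold PSys.dg
    push_cast
    rfl
  have h2 : ∑ U ∈ S.UU N, ∑ p ∈ U, (S.deg p : ℝ) * f S x Y U =
      ∑ p ∈ S.le N, ∑ U ∈ (S.UU N).filter (fun U => p ∈ U), (S.deg p : ℝ) * f S x Y U := by
    refine Finset.sum_comm' (fun U p => ?_)
    rw [Finset.mem_filter, mem_UU, S.mem_le]
    constructor
    · rintro ⟨h, hp⟩
      refine ⟨⟨h, hp⟩, ?_⟩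
      rw [← h]
      exact Finset.single_le_sum (f := S.deg) (fun _ _ => Nat.zero_le _) hp
    · rintro ⟨⟨h, hp⟩, _⟩
      exact ⟨h, hp⟩
  rw [h1, h2]
  refine Finset.sum_le_sum (fun p hp => ?_)
  rw [← Finset.mul_sum]
  refine mul_le_mul_of_nonneg_left ?_ (Nat.cast_nonneg _)
  unfold F
  calc ∑ U ∈ (S.UU N).filter (fun U => p ∈ U), f S x Y U
      ≤ ∑ U ∈ (S.UU N).filter (fun U => p ∈ U), f S x Y (U.erase p) := by
        refine Finset.sum_le_sum (fun U hU => ?_)
        have hpU := (Finset.mem_filter.1 hU).2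
        unfold f
        rw [← Finset.mul_prod_erase U (fun p => w x Y (S.deg p)) hpU]
        have h0 : 0 ≤ ∏ p ∈ U.erase p, w x Y (S.deg p) :=
          Finset.prod_nonneg (fun _ _ => w_nonneg _ _ _)
        have h1 := w_le_one x Y (S.deg p)
        nlinarith
    _ = ∑ U ∈ ((S.UU N).filter (fun U => p ∈ U)).image (fun U => U.erase p), f S x Y U := by
        rw [Finset.sum_image]
        intro U hU V hV hUV
        have hpU := (Finset.mem_filter.1 (Finset.mem_coe.1 hU)).2
        have hpV := (Finset.mem_filter.1 (Finset.mem_coe.1 hV)).2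
        have hUV' : U.erase p = V.erase p := hUV
        rw [← Finset.insert_erase hpU, ← Finset.insert_erase hpV, hUV']
    _ ≤ ∑ U ∈ S.UU (N - S.deg p), f S x Y U := by
        refine Finset.sum_le_sum_of_subset_of_nonneg ?_ (fun _ _ _ => f_nonneg _ _ _ _)
        intro V hV
        rw [Finset.mem_image] at hV
        obtain ⟨U, hU, rfl⟩ := hV
        rw [Finset.mem_filter, mem_UU] at hU
        rw [mem_UU, ← hU.1]
        unfold PSys.dg
        rw [← Finset.add_sum_erase U S.deg hU.2]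
        omega

lemma sum_le_eq (N : ℕ) (g : ℕ → ℝ) :
    ∑ p ∈ S.le N, g (S.deg p) = ∑ l ∈ Finset.Icc 1 N, ((S.eq l).card : ℝ) * g l := by
  rw [← Finset.sum_fiberwise_of_maps_to (s := S.le N) (t := Finset.Icc 1 N) (g := S.deg)
    (f := fun p => g (S.deg p))]
  · refine Finset.sum_congr rfl (fun l hl => ?_)
    rw [Finset.mem_Icc] at hl
    have : (S.le N).filter (fun p => S.deg p = l) = S.eq l := by
      unfold PSys.eq
      ext p
      simp only [Finset.mem_filter, S.mem_le]
      omega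
    rw [this, Finset.sum_congr rfl (g := fun _ => g l), Finset.sum_const, nsmul_eq_mul]
    intro p hp
    unfold PSys.eq at hp
    rw [(Finset.mem_filter.1 hp).2]
  · intro p hp
    rw [S.mem_le] at hp
    rw [Finset.mem_Icc]
    exact ⟨S.pos p, hp⟩

lemma step_B {q : ℕ} {C : ℝ} (hq : 2 ≤ q)
    (up : ∀ l : ℕ, (l : ℝ) * ((S.eq l).card : ℝ) ≤ C * (q : ℝ) ^ l) (x Y N : ℕ) :
    ∑ p ∈ S.le N, (S.deg p : ℝ) * F S x Y (N - S.deg p) ≤
      C * (q : ℝ) ^ N * ∑ n ∈ Finset.range (N + 1), F S x Y n / (q : ℝ) ^ n := by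
  have hq0 : (0 : ℝ) < q := by positivity
  have hC : 0 ≤ C := by
    have := up 0
    simpa using this
  rw [sum_le_eq S N (fun l => (l : ℝ) * F S x Y (N - l))]
  calc ∑ l ∈ Finset.Icc 1 N, ((S.eq l).card : ℝ) * ((l : ℝ) * F S x Y (N - l))
      ≤ ∑ l ∈ Finset.range (N + 1), ((S.eq l).card : ℝ) * ((l : ℝ) * F S x Y (N - l)) := by
        refine Finset.sum_le_sum_of_subset_of_nonneg ?_ (fun l _ _ => ?_)
        · intro l hl
          rw [Finset.mem_Icc] at hl
          rw [Finset.mem_range]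
          omega
        · have := F_nonneg S x Y (N - l)
          positivity
    _ ≤ ∑ l ∈ Finset.range (N + 1), C * (q : ℝ) ^ N * (F S x Y (N - l) / (q : ℝ) ^ (N - l)) := by
        refine Finset.sum_le_sum (fun l hl => ?_)
        rw [Finset.mem_range] at hl
        have h0 := F_nonneg S x Y (N - l)
        have h1 := up l
        have h2 : (q : ℝ) ^ N = (q : ℝ) ^ l * (q : ℝ) ^ (N - l) := by
          rw [← pow_add]
          congr 1
          omega
        have h3 : C * (q : ℝ) ^ N * (F S x Y (N - l) / (q : ℝ) ^ (N - l)) =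
            C * (q : ℝ) ^ l * F S x Y (N - l) := by
          rw [h2]
          have : (q : ℝ) ^ (N - l) ≠ 0 := by positivity
          field_simp
        rw [h3]
        calc ((S.eq l).card : ℝ) * ((l : ℝ) * F S x Y (N - l))
            = ((l : ℝ) * ((S.eq l).card : ℝ)) * F S x Y (N - l) := by ring
          _ ≤ _ := mul_le_mul_of_nonneg_right h1 h0
    _ = C * (q : ℝ) ^ N * ∑ n ∈ Finset.range (N + 1), F S x Y n / (q : ℝ) ^ n := by
        rw [← Finset.mul_sum]
        congr 1
        have := Finset.sum_range_reflect (fun n => F S x Y n / (q : ℝ) ^ n) (N + 1)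
        simpa using this

lemma step_C {q : ℕ} (hq : 2 ≤ q) (x Y N : ℕ) :
    ∑ n ∈ Finset.range (N + 1), F S x Y n / (q : ℝ) ^ n ≤
      ∏ p ∈ S.le N, (1 + w x Y (S.deg p) / (q : ℝ) ^ (S.deg p)) := by
  have hq0 : (0 : ℝ) < q := by positivity
  have h1 : ∏ p ∈ S.le N, (1 + w x Y (S.deg p) / (q : ℝ) ^ (S.deg p)) =
      ∑ U ∈ (S.le N).powerset, f S x Y U / (q : ℝ) ^ (S.dg U) := by
    rw [Finset.prod_one_add]
    refine Finset.sum_congr rfl (fun U _ => ?_)
    unfold f PSys.dg
    rw [Finset.prod_div_distrib, Finset.prod_pow_eq_pow_sum]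
  rw [h1]
  have h2 : ∑ n ∈ Finset.range (N + 1), F S x Y n / (q : ℝ) ^ n =
      ∑ n ∈ Finset.range (N + 1), ∑ U ∈ ((S.le N).powerset.filter
        (fun U => S.dg U ∈ Finset.range (N + 1))).filter (fun U => S.dg U = n),
        f S x Y U / (q : ℝ) ^ (S.dg U) := by
    refine Finset.sum_congr rfl (fun n hn => ?_)
    unfold F
    rw [Finset.sum_div]
    have h3 : ((S.le N).powerset.filter
        (fun U => S.dg U ∈ Finset.range (N + 1))).filter (fun U => S.dg U = n) = S.UU n := by
      ext U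
      rw [mem_UU, Finset.mem_filter, Finset.mem_filter, Finset.mem_powerset]
      constructor
      · exact fun h => h.2
      · intro h
        refine ⟨⟨?_, by rw [h]; exact hn⟩, h⟩
        intro p hp
        rw [S.mem_le]
        have h4 : S.deg p ≤ S.dg U :=
          Finset.single_le_sum (f := S.deg) (fun _ _ => Nat.zero_le _) hp
        rw [Finset.mem_range] at hn
        omega
    rw [h3]
    refine Finset.sum_congr rfl (fun U hU => ?_)
    rw [mem_UU] at hU
    rw [hU]
  rw [h2, Finset.sum_fiberwise_of_maps_to (s := (S.le N).powerset.filter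
    (fun U => S.dg U ∈ Finset.range (N + 1))) (t := Finset.range (N + 1)) (g := S.dg)
    (fun U hU => (Finset.mem_filter.1 hU).2)]
  refine Finset.sum_le_sum_of_subset_of_nonneg (Finset.filter_subset _ _) (fun U _ _ => ?_)
  have := f_nonneg S x Y U
  positivity

lemma step_D {q : ℕ} (hq : 2 ≤ q) (x Y N : ℕ) :
    ∏ p ∈ S.le N, (1 + w x Y (S.deg p) / (q : ℝ) ^ (S.deg p)) ≤
      Real.exp (∑ l ∈ Finset.Icc 1 N, ((S.eq l).card : ℝ) / (q : ℝ) ^ l -
        1 / 2 * ∑ l ∈ Finset.Ioc x (min Y N), ((S.eq l).card : ℝ) / (q : ℝ) ^ l) := by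
  have hq0 : (0 : ℝ) < q := by positivity
  calc ∏ p ∈ S.le N, (1 + w x Y (S.deg p) / (q : ℝ) ^ (S.deg p))
      ≤ ∏ p ∈ S.le N, Real.exp (w x Y (S.deg p) / (q : ℝ) ^ (S.deg p)) := by
        refine Finset.prod_le_prod (fun p _ => ?_) (fun p _ => ?_)
        · have := w_nonneg x Y (S.deg p)
          positivity
        · rw [add_comm]
          exact Real.add_one_le_exp _
    _ = Real.exp (∑ p ∈ S.le N, w x Y (S.deg p) / (q : ℝ) ^ (S.deg p)) := by
        rw [Real.exp_sum]
    _ = _ := by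
        congr 1
        rw [sum_le_eq S N (fun l => w x Y l / (q : ℝ) ^ l)]
        have h1 : Finset.Ioc x (min Y N) = (Finset.Icc 1 N).filter (fun l => x < l ∧ l ≤ Y) := by
          ext l
          simp only [Finset.mem_Ioc, Finset.mem_filter, Finset.mem_Icc]
          omega
        rw [h1, Finset.sum_filter, Finset.mul_sum, ← Finset.sum_sub_distrib]
        refine Finset.sum_congr rfl (fun l _ => ?_)
        unfold w
        split_ifs <;> ring

/-- Hall's inequality. -/
theorem hal : S_HAL := by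
  intro ι S q C c W n₀ H
  have hq := H.q2
  have hC := H.C1
  have hc := H.c0
  have hq0 : (0 : ℝ) < q := by positivity
  refine ⟨1 + C * Real.exp (3 * C / 2), by positivity, ?_⟩
  intro x Y N
  have hF : ∑ U ∈ S.UU N, (1 / 2 : ℝ) ^ (cnt S x Y U) = F S x Y N := by
    unfold F
    exact Finset.sum_congr rfl (fun U _ => (f_eq S x Y U).symm)
  rw [hF]
  have hbase : (0 : ℝ) < ((x : ℝ) + 1) / (((min Y N : ℕ) : ℝ) + 1) := by positivity
  rcases Nat.eq_zero_or_pos N with rfl | hN
  · have h0 : S.UU 0 = {∅} := by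
      ext U
      rw [mem_UU, Finset.mem_singleton]
      constructor
      · intro h
        rw [Finset.eq_empty_iff_forall_notMem]
        intro p hp
        have h4 : S.deg p ≤ S.dg U :=
          Finset.single_le_sum (f := S.deg) (fun _ _ => Nat.zero_le _) hp
        have := S.pos p
        omega
      · rintro rfl
        simp [PSys.dg]
    have h1 : F S x Y 0 = 1 := by
      unfold F
      rw [h0, Finset.sum_singleton]
      simp [f]
    rw [h1]
    have h2 : (1 : ℝ) ≤ (((x : ℝ) + 1) / (((min Y 0 : ℕ) : ℝ) + 1)) ^ (c / 2) := by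
      apply Real.one_le_rpow
      · simp
      · positivity
    have h3 : (1 : ℝ) ≤ 1 + C * Real.exp (3 * C / 2) := by
      have : 0 ≤ C * Real.exp (3 * C / 2) := by positivity
      linarith
    rw [pow_zero, mul_one]
    nlinarith
  · have hN' : (0 : ℝ) < N := by exact_mod_cast hN
    have h1 := step_A S x Y N
    have h2 := step_B S hq H.up x Y N
    have h3 := step_C S hq x Y N
    have h4 := step_D S hq x Y N
    have h5 := H.mert N hN
    -- the exponential
    have h6 : Real.exp (∑ l ∈ Finset.Icc 1 N, ((S.eq l).card : ℝ) / (q : ℝ) ^ l -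
        1 / 2 * ∑ l ∈ Finset.Ioc x (min Y N), ((S.eq l).card : ℝ) / (q : ℝ) ^ l) ≤
        N * Real.exp (3 * C / 2) *
          (((x : ℝ) + 1) / (((min Y N : ℕ) : ℝ) + 1)) ^ (c / 2) := by
      have e1 : (N : ℝ) * Real.exp (3 * C / 2) *
          (((x : ℝ) + 1) / (((min Y N : ℕ) : ℝ) + 1)) ^ (c / 2) =
          Real.exp (Real.log N + 3 * C / 2 +
            Real.log (((x : ℝ) + 1) / (((min Y N : ℕ) : ℝ) + 1)) * (c / 2)) := by
        rw [Real.exp_add, Real.exp_add, Real.exp_log hN', Real.rpow_def_of_pos hbase]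
      rw [e1]
      apply Real.exp_le_exp.2
      rcases le_or_gt x (min Y N) with hx | hx
      · have h7 := H.low x (min Y N) hx
        have h8 : Real.log (((x : ℝ) + 1) / (((min Y N : ℕ) : ℝ) + 1)) =
            - Real.log ((((min Y N : ℕ) : ℝ) + 1) / ((x : ℝ) + 1)) := by
          rw [← Real.log_inv, inv_div]
        rw [h8]
        linarith
      · have h7 : 0 ≤ Real.log (((x : ℝ) + 1) / (((min Y N : ℕ) : ℝ) + 1)) := by
          apply Real.log_nonneg
          rw [le_div_iff₀ (by positivity)]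
          have : ((min Y N : ℕ) : ℝ) ≤ (x : ℝ) := by exact_mod_cast hx.le
          linarith
        have h8 : 0 ≤ ∑ l ∈ Finset.Ioc x (min Y N), ((S.eq l).card : ℝ) / (q : ℝ) ^ l :=
          Finset.sum_nonneg (fun _ _ => by positivity)
        have h9 : 0 ≤ Real.log (((x : ℝ) + 1) / (((min Y N : ℕ) : ℝ) + 1)) * (c / 2) := by
          positivity
        linarith
    have h10 : (N : ℝ) * F S x Y N ≤ C * (q : ℝ) ^ N * (N * Real.exp (3 * C / 2) *
          (((x : ℝ) + 1) / (((min Y N : ℕ) : ℝ) + 1)) ^ (c / 2)) := by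
      refine h1.trans (h2.trans ?_)
      exact mul_le_mul_of_nonneg_left (h3.trans (h4.trans h6)) (by positivity)
    have h11 : (N : ℝ) * F S x Y N ≤ N * (C * Real.exp (3 * C / 2) * (q : ℝ) ^ N *
          (((x : ℝ) + 1) / (((min Y N : ℕ) : ℝ) + 1)) ^ (c / 2)) := by
      refine h10.trans (le_of_eq (by ring))
    have h12 := le_of_mul_le_mul_left h11 hN'
    refine h12.trans ?_
    have h13 : 0 ≤ (q : ℝ) ^ N * (((x : ℝ) + 1) / (((min Y N : ℕ) : ℝ) + 1)) ^ (c / 2) := by
      positivity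
    calc C * Real.exp (3 * C / 2) * (q : ℝ) ^ N *
          (((x : ℝ) + 1) / (((min Y N : ℕ) : ℝ) + 1)) ^ (c / 2)
        = C * Real.exp (3 * C / 2) * ((q : ℝ) ^ N *
          (((x : ℝ) + 1) / (((min Y N : ℕ) : ℝ) + 1)) ^ (c / 2)) := by ring
      _ ≤ (1 + C * Real.exp (3 * C / 2)) * ((q : ℝ) ^ N *
          (((x : ℝ) + 1) / (((min Y N : ℕ) : ℝ) + 1)) ^ (c / 2)) := by
          refine mul_le_mul_of_nonneg_right ?_ h13
          linarith
      _ = _ := by ring

end Pool.Agent.H467.PT.Hal
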