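import Pool.Agent.H467.PT.Spec

/-!
# Random matrices with independent columns (helper627)
-/

set_option autoImplicit false
set_option linter.all false

open Finset
open scoped Classical

namespace Pool.Agent.H467.PT.Lin

section
variable {A κ ρ : Type} [AddCommGroup A] [Fintype A] [Fintype κ] [Fintype ρ]

/-- the elements which change only the column `j` -/
noncomputable def G (Y : A → κ → ρ → ZMod 2) (j : κ) : Finset A :=
  Finset.univ.filter fun g => ∀ l, l ≠ j → ∀ i, Y g l i = 0

/-- those with prescribed change in the rows in `R` -/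
noncomputable def F (Y : A → κ → ρ → ZMod 2) (j : κ) (R : Finset ρ) (y : ρ → ZMod 2) : Finset A :=
  (G Y j).filter fun g => ∀ i ∈ R, Y g j i = y i

theorem mem_G {Y : A → κ → ρ → ZMod 2} {j : κ} {g : A} :
    g ∈ G Y j ↔ ∀ l, l ≠ j → ∀ i, Y g l i = 0 := by
  unfold G
  rw [Finset.mem_filter]
  exact and_iff_right (Finset.mem_univ _)

theorem mem_F {Y : A → κ → ρ → ZMod 2} {j : κ} {R : Finset ρ} {y : ρ → ZMod 2} {g : A} :
    g ∈ F Y j R y ↔ g ∈ G Y j ∧ ∀ i ∈ R, Y g j i = y i := by
  unfold F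
  rw [Finset.mem_filter]

variable {X Y : A → κ → ρ → ZMod 2} (hX : ∀ a a' j i, X (a + a') j i = X a j i + Y a' j i)
  (hY : ∀ a a' j i, Y (a + a') j i = Y a j i + Y a' j i)

include hY in
theorem F_shift {j : κ} {R : Finset ρ} (y z : ρ → ZMod 2) {a : A} (ha : a ∈ F Y j R z) :
    (F Y j R y).card ≤ (F Y j R (y + z)).card := by
  refine Finset.card_le_card_of_injOn (fun g => g + a) (fun g hg => ?_)
    (fun g _ g' _ h => add_right_cancel h)
  have hg' := mem_F.1 (Finset.mem_coe.1 hg)
  have ha' := mem_F.1 ha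
  refine Finset.mem_coe.2 (mem_F.2 ⟨mem_G.2 fun l hl i => ?_, fun i hi => ?_⟩)
  · rw [hY, mem_G.1 hg'.1 l hl i, mem_G.1 ha'.1 l hl i, add_zero]
  · rw [hY, hg'.2 i hi, ha'.2 i hi, Pi.add_apply]

theorem two_self (x : ZMod 2) : x + x = 0 := CharTwo.add_self_eq_zero x

include hY in
theorem F_card {j : κ} {R : Finset ρ}
    (hs : ∀ (y : ρ → ZMod 2), ∃ a, (∀ l, l ≠ j → ∀ i, Y a l i = 0) ∧ ∀ i ∈ R, Y a j i = y i)
    (y : ρ → ZMod 2) : (F Y j R y).card = (F Y j R 0).card := by
  obtain ⟨a, h1, h2⟩ := hs y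
  have ha : a ∈ F Y j R y := mem_F.2 ⟨mem_G.2 h1, h2⟩
  refine le_antisymm ?_ ?_
  · have h := F_shift hY y y ha
    have e : y + y = 0 := funext fun i => two_self (y i)
    rwa [e] at h
  · have h := F_shift hY 0 y ha
    rwa [zero_add] at h

include hY in
theorem G_card {j : κ} {R : Finset ρ}
    (hs : ∀ (y : ρ → ZMod 2), ∃ a, (∀ l, l ≠ j → ∀ i, Y a l i = 0) ∧ ∀ i ∈ R, Y a j i = y i) :
    (G Y j).card = 2 ^ R.card * (F Y j R 0).card := by
  have h1 : (G Y j).card = ∑ b ∈ (Finset.univ : Finset (R → ZMod 2)),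
      ((G Y j).filter fun g => (fun i : R => Y g j i) = b).card :=
    Finset.card_eq_sum_card_fiberwise fun _ _ => Finset.mem_coe.2 (Finset.mem_univ _)
  rw [h1]
  have h2 : ∀ b : R → ZMod 2, ((G Y j).filter fun g => (fun i : R => Y g j i) = b).card =
      (F Y j R 0).card := by
    intro b
    rw [← F_card hY hs (fun i => if h : i ∈ R then b ⟨i, h⟩ else 0)]
    congr 1
    ext g
    rw [Finset.mem_filter, mem_F]
    refine and_congr_right fun _ => ⟨fun h i hi => ?_, fun h => funext fun i => ?_⟩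
    · rw [dif_pos hi, ← h]
    · have := h i.1 i.2
      rw [dif_pos i.2] at this
      exact this
  rw [Finset.sum_congr rfl fun b _ => h2 b, Finset.sum_const, smul_eq_mul, Finset.card_univ,
    Fintype.card_fun, ZMod.card, Fintype.card_coe]

/-- the span of the previous columns -/
noncomputable def T (X : A → κ → ρ → ZMod 2) (rk : κ → ℕ) (a : A) (j : κ) :
    Finset (ρ → ZMod 2) :=
  Finset.univ.image fun c : {l // rk l < rk j} → ZMod 2 => fun i => ∑ l, c l * X a l.1 i

theorem T_card (rk : κ → ℕ) (a : A) (j : κ) :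
    (T X rk a j).card ≤ 2 ^ (Finset.univ.filter (fun l => rk l < rk j)).card := by
  unfold T
  refine Finset.card_image_le.trans (le_of_eq ?_)
  rw [Finset.card_univ, Fintype.card_fun, ZMod.card, Fintype.card_subtype]

/-- the set of the matrices whose column `j` is in the span of the previous ones -/
noncomputable def Bad (X : A → κ → ρ → ZMod 2) (rk : κ → ℕ) (j : κ) : Finset A :=
  Finset.univ.filter fun a => X a j ∈ T X rk a j

theorem mem_Bad {rk : κ → ℕ} {j : κ} {a : A} : a ∈ Bad X rk j ↔ X a j ∈ T X rk a j := by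
  unfold Bad
  rw [Finset.mem_filter]
  exact and_iff_right (Finset.mem_univ _)

include hX in
theorem X_shift {j l : κ} {a g : A} (hg : g ∈ G Y j) (hl : l ≠ j) : X (a + g) l = X a l :=
  funext fun i => by rw [hX, mem_G.1 hg l hl i, add_zero]

include hX in
theorem T_shift {rk : κ → ℕ} {j l : κ} {a g : A} (hg : g ∈ G Y j) (hl : rk l ≤ rk j) :
    T X rk (a + g) l = T X rk a l := by
  unfold T
  congr 1
  ext c i
  refine Finset.sum_congr rfl fun k _ => ?_
  have hk : k.1 ≠ j := fun h => by
    have := k.2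
    rw [h] at this
    omega
  rw [X_shift hX hg hk]

include hX hY in
theorem count1 {rk : κ → ℕ} {j : κ} {R : Finset ρ}
    (hs : ∀ (y : ρ → ZMod 2), ∃ a, (∀ l, l ≠ j → ∀ i, Y a l i = 0) ∧ ∀ i ∈ R, Y a j i = y i)
    (a : A) : ((G Y j).filter fun g => a + g ∈ Bad X rk j).card * 2 ^ R.card ≤
      2 ^ (Finset.univ.filter (fun l => rk l < rk j)).card * (G Y j).card := by
  have h1 : ((G Y j).filter fun g => a + g ∈ Bad X rk j) ⊆
      (T X rk a j).biUnion fun t => F Y j R (fun i => t i - X a j i) := by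
    intro g hg
    obtain ⟨hg1, hg2⟩ := Finset.mem_filter.1 hg
    rw [mem_Bad, T_shift hX hg1 le_rfl] at hg2
    refine Finset.mem_biUnion.2 ⟨_, hg2, mem_F.2 ⟨hg1, fun i _ => ?_⟩⟩
    rw [hX]
    ring
  have h2 : ((G Y j).filter fun g => a + g ∈ Bad X rk j).card ≤
      2 ^ (Finset.univ.filter (fun l => rk l < rk j)).card * (F Y j R 0).card := by
    calc ((G Y j).filter fun g => a + g ∈ Bad X rk j).card
        ≤ ((T X rk a j).biUnion fun t => F Y j R (fun i => t i - X a j i)).card :=
          Finset.card_le_card h1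
      _ ≤ ∑ t ∈ T X rk a j, (F Y j R (fun i => t i - X a j i)).card := Finset.card_biUnion_le
      _ = (T X rk a j).card * (F Y j R 0).card := by
          rw [Finset.sum_congr rfl fun t _ => F_card hY hs _, Finset.sum_const, smul_eq_mul]
      _ ≤ _ := Nat.mul_le_mul_right _ (T_card rk a j)
  rw [G_card hY hs]
  calc _ ≤ 2 ^ (Finset.univ.filter (fun l => rk l < rk j)).card * (F Y j R 0).card * 2 ^ R.card :=
        Nat.mul_le_mul_right _ h2
    _ = _ := by ring

theorem dc (S B : Finset A) : ∑ a : A, (S.filter fun g => a + g ∈ B).card = S.card * B.card := by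
  have h1 : ∀ a : A, (S.filter fun g => a + g ∈ B).card = ∑ g ∈ S, if a + g ∈ B then 1 else 0 :=
    fun a => Finset.card_filter _ _
  rw [Finset.sum_congr rfl fun a _ => h1 a, Finset.sum_comm]
  have h2 : ∀ g ∈ S, ∑ a : A, (if a + g ∈ B then 1 else 0) = B.card := by
    intro g _
    have h3 : ∑ a : A, (if a + g ∈ B then 1 else 0) = ∑ a : A, (if a ∈ B then 1 else 0) :=
      Fintype.sum_equiv (Equiv.addRight g) _ _ fun a => rfl
    rw [h3, ← Finset.card_filter]
    congr 1
    ext x
    simp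
  rw [Finset.sum_congr rfl h2, Finset.sum_const, smul_eq_mul]

theorem G_pos {j : κ} (hY : ∀ a a' j i, Y (a + a') j i = Y a j i + Y a' j i) :
    0 < (G Y j).card := by
  refine Finset.card_pos.2 ⟨0, mem_G.2 fun l _ i => ?_⟩
  have h := hY 0 0 l i
  rw [add_zero] at h
  have h2 : Y 0 l i + 0 = Y 0 l i + Y 0 l i := by rw [add_zero]; exact h
  exact (add_left_cancel h2).symm

/-- independent columns -/
theorem indep {rk : κ → ℕ} (hrk : Function.Injective rk) {a : A}
    (h : ∀ j, X a j ∉ T X rk a j) : LinearIndependent (ZMod 2) (X a) := by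
  rw [Fintype.linearIndependent_iff]
  intro c hc
  by_contra hne
  push Not at hne
  obtain ⟨l₀, hl₀⟩ := hne
  obtain ⟨j, hj, hmax⟩ := Finset.exists_max_image (Finset.univ.filter fun l => c l ≠ 0) rk
    ⟨l₀, Finset.mem_filter.2 ⟨Finset.mem_univ _, hl₀⟩⟩
  have hcj : c j ≠ 0 := (Finset.mem_filter.1 hj).2
  have hcj1 : c j = 1 := by
    have : ∀ x : ZMod 2, x ≠ 0 → x = 1 := by decide
    exact this _ hcj
  apply h j
  refine Finset.mem_image.2 ⟨fun l => c l.1, Finset.mem_univ _, funext fun i => ?_⟩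
  have h1 := congrFun hc i
  rw [Finset.sum_apply, Pi.zero_apply] at h1
  simp only [Pi.smul_apply, smul_eq_mul] at h1
  rw [← Finset.add_sum_erase Finset.univ (fun l => c l * X a l i) (Finset.mem_univ j)] at h1
  have h2 : ∑ l ∈ Finset.univ.erase j, c l * X a l i =
      ∑ l ∈ Finset.univ.filter (fun l => rk l < rk j), c l * X a l i := by
    symm
    refine Finset.sum_subset ?_ ?_
    · intro l hl
      refine Finset.mem_erase.2 ⟨fun h3 => ?_, Finset.mem_univ _⟩
      have := (Finset.mem_filter.1 hl).2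
      rw [h3] at this
      exact lt_irrefl _ this
    · intro l hl hl2
      have h3 : c l = 0 := by
        by_contra h4
        have h5 := hmax l (Finset.mem_filter.2 ⟨Finset.mem_univ _, h4⟩)
        have h6 : rk l ≠ rk j := fun h7 => (Finset.mem_erase.1 hl).1 (hrk h7)
        exact hl2 (Finset.mem_filter.2 ⟨Finset.mem_univ _, lt_of_le_of_ne h5 h6⟩)
      rw [h3, zero_mul]
  have h3 : ∑ l : {l // rk l < rk j}, c l.1 * X a l.1 i =
      ∑ l ∈ Finset.univ.filter (fun l => rk l < rk j), c l * X a l i :=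
    (Finset.sum_subtype (Finset.univ.filter (fun l => rk l < rk j)) (fun l => by simp)
      (fun l => c l * X a l i)).symm
  rw [h3, ← h2]
  rw [hcj1, one_mul] at h1
  have h4 : X a j i + X a j i = 0 := two_self _
  have h5 : ∑ l ∈ Finset.univ.erase j, c l * X a l i = X a j i := by
    have h6 : X a j i + ∑ l ∈ Finset.univ.erase j, c l * X a l i = X a j i + X a j i := by
      rw [h1, h4]
    exact add_left_cancel h6
  exact h5

theorem dual_zero (hc : Fintype.card κ = Fintype.card ρ) {a : A}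
    (h : LinearIndependent (ZMod 2) (X a)) (e : ρ → ZMod 2)
    (he : ∀ j, ∑ i, e i * X a j i = 0) : e = 0 := by
  have h1 : Submodule.span (ZMod 2) (Set.range (X a)) = ⊤ :=
    h.span_eq_top_of_card_eq_finrank' (by rw [Module.finrank_fintype_fun_eq_card, hc])
  let φ : (ρ → ZMod 2) →ₗ[ZMod 2] ZMod 2 :=
    { toFun := fun x => ∑ i, e i * x i
      map_add' := fun x y => by simp [mul_add, Finset.sum_add_distrib]
      map_smul' := fun c x => by
        simp only [Pi.smul_apply, smul_eq_mul, RingHom.id_apply, Finset.mul_sum]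
        exact Finset.sum_congr rfl fun i _ => by ring }
  have h2 : ∀ x ∈ Submodule.span (ZMod 2) (Set.range (X a)), φ x = 0 := by
    intro x hx
    have h3 : Submodule.span (ZMod 2) (Set.range (X a)) ≤ LinearMap.ker φ := by
      rw [Submodule.span_le]
      rintro _ ⟨j, rfl⟩
      exact he j
    exact h3 hx
  funext i
  have h3 := h2 (Pi.single i 1) (by rw [h1]; exact Submodule.mem_top)
  have h4 : φ (Pi.single i 1) = e i := by
    show ∑ k, e k * (Pi.single i (1 : ZMod 2) : ρ → ZMod 2) k = e i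
    rw [Finset.sum_eq_single i]
    · simp
    · intro k _ hk
      rw [Pi.single_eq_of_ne hk, mul_zero]
    · intro h5
      exact absurd (Finset.mem_univ i) h5
  rw [← h4, h3]
  rfl

end

theorem lin : S_LIN := by
  intro A κ ρ _ _ _ _ hc X Y hX hY rk hrk j₁ hj₁ R hs hR hsum
  -- the numbers of bad elements
  have hbad : ∀ j, ((Bad X rk j).card : ℝ) ≤ (Fintype.card A : ℝ) * ((1 / 2 : ℝ) ^ (R j).card *
      2 ^ ((Finset.univ.filter (fun l => rk l < rk j)).card)) := by
    intro j
    have h1 : ∑ a : A, ((G Y j).filter fun g => a + g ∈ Bad X rk j).card * 2 ^ (R j).card ≤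
        ∑ a : A, 2 ^ (Finset.univ.filter (fun l => rk l < rk j)).card * (G Y j).card :=
      Finset.sum_le_sum fun a _ => count1 hX hY (hs j) a
    rw [← Finset.sum_mul, dc, Finset.sum_const, Finset.card_univ, smul_eq_mul] at h1
    have h2 : (G Y j).card * ((Bad X rk j).card * 2 ^ (R j).card) ≤ (G Y j).card *
        (Fintype.card A * 2 ^ (Finset.univ.filter (fun l => rk l < rk j)).card) := by
      calc _ = (G Y j).card * (Bad X rk j).card * 2 ^ (R j).card := by ring
        _ ≤ _ := h1
        _ = _ := by ring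
    have h3 := Nat.le_of_mul_le_mul_left h2 (G_pos hY)
    have h4 : ((Bad X rk j).card : ℝ) * 2 ^ (R j).card ≤
        (Fintype.card A : ℝ) * 2 ^ (Finset.univ.filter (fun l => rk l < rk j)).card := by
      exact_mod_cast h3
    rw [one_div, inv_pow]
    have h5 : (0 : ℝ) < 2 ^ (R j).card := by positivity
    rw [← mul_assoc, mul_comm (Fintype.card A : ℝ), mul_assoc, ← div_eq_inv_mul, le_div_iff₀ h5]
    exact h4
  -- the good ones
  let Gd : Finset A := Finset.univ.filter fun a => ∀ j, j ≠ j₁ → a ∉ Bad X rk j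
  have hGd : (Fintype.card A : ℝ) ≤ 4 * (Gd.card : ℝ) := by
    have h1 : (Finset.univ : Finset A) ⊆ Gd ∪ (Finset.univ.erase j₁).biUnion fun j => Bad X rk j := by
      intro a _
      by_cases h : ∀ j, j ≠ j₁ → a ∉ Bad X rk j
      · exact Finset.mem_union_left _ (Finset.mem_filter.2 ⟨Finset.mem_univ _, h⟩)
      · push Not at h
        obtain ⟨j, hj, ha⟩ := h
        exact Finset.mem_union_right _ (Finset.mem_biUnion.2
          ⟨j, Finset.mem_erase.2 ⟨hj, Finset.mem_univ _⟩, ha⟩)
    have h2 : Fintype.card A ≤ Gd.card + ∑ j ∈ Finset.univ.erase j₁, (Bad X rk j).card := by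
      rw [← Finset.card_univ]
      exact (Finset.card_le_card h1).trans ((Finset.card_union_le _ _).trans
        (Nat.add_le_add_left Finset.card_biUnion_le _))
    have h3 : (Fintype.card A : ℝ) ≤ (Gd.card : ℝ) +
        ∑ j ∈ Finset.univ.erase j₁, ((Bad X rk j).card : ℝ) := by exact_mod_cast h2
    have h4 : ∑ j ∈ Finset.univ.erase j₁, ((Bad X rk j).card : ℝ) ≤
        (Fintype.card A : ℝ) * (3 / 4) := by
      refine (Finset.sum_le_sum fun j _ => hbad j).trans ?_
      rw [← Finset.mul_sum]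
      exact mul_le_mul_of_nonneg_left hsum (Nat.cast_nonneg _)
    linarith
  have hGd' : Fintype.card A ≤ 4 * Gd.card := by exact_mod_cast hGd
  -- the last column
  have hprev : (Finset.univ.filter (fun l => rk l < rk j₁)) = Finset.univ.erase j₁ := by
    ext l
    rw [Finset.mem_filter, Finset.mem_erase]
    constructor
    · rintro ⟨_, h⟩
      refine ⟨fun h2 => ?_, Finset.mem_univ _⟩
      rw [h2] at h
      exact lt_irrefl _ h
    · rintro ⟨h, _⟩
      exact ⟨Finset.mem_univ _, hj₁ l h⟩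
  have hlast : ∀ a : A, 2 * ((G Y j₁).filter fun g => a + g ∈ Bad X rk j₁).card ≤
      (G Y j₁).card := by
    intro a
    have h1 := count1 hX hY (rk := rk) (hs j₁) a
    rw [hprev, hR, Finset.card_univ, Finset.card_erase_of_mem (Finset.mem_univ _),
      Finset.card_univ, ← hc] at h1
    have h2 : 0 < Fintype.card κ := Fintype.card_pos_iff.2 ⟨j₁⟩
    obtain ⟨k, hk⟩ := Nat.exists_eq_succ_of_ne_zero h2.ne'
    rw [hk, Nat.succ_sub_one, Nat.pow_succ] at h1
    have h3 : 0 < 2 ^ k := by positivity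
    refine Nat.le_of_mul_le_mul_left ?_ h3
    calc 2 ^ k * (2 * ((G Y j₁).filter fun g => a + g ∈ Bad X rk j₁).card) =
          ((G Y j₁).filter fun g => a + g ∈ Bad X rk j₁).card * (2 ^ k * 2) := by ring
      _ ≤ _ := h1
  let Fin' : Finset A := Gd.filter fun a => a ∉ Bad X rk j₁
  have hfin : Gd.card ≤ 2 * Fin'.card := by
    have h1 : ∀ a ∈ Gd, (G Y j₁).card ≤ 2 * ((G Y j₁).filter fun g => a + g ∈ Fin').card := by
      intro a ha
      have h2 : (G Y j₁).card ≤ ((G Y j₁).filter fun g => a + g ∈ Bad X rk j₁).card +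
          ((G Y j₁).filter fun g => a + g ∈ Fin').card := by
        have h3 : (G Y j₁) ⊆ ((G Y j₁).filter fun g => a + g ∈ Bad X rk j₁) ∪
            ((G Y j₁).filter fun g => a + g ∈ Fin') := by
          intro g hg
          by_cases h4 : a + g ∈ Bad X rk j₁
          · exact Finset.mem_union_left _ (Finset.mem_filter.2 ⟨hg, h4⟩)
          · refine Finset.mem_union_right _ (Finset.mem_filter.2 ⟨hg, Finset.mem_filter.2
              ⟨Finset.mem_filter.2 ⟨Finset.mem_univ _, fun j hj h5 => ?_⟩, h4⟩⟩)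
            rw [mem_Bad, X_shift hX hg hj, T_shift hX hg (hj₁ j hj).le] at h5
            exact (Finset.mem_filter.1 ha).2 j hj (mem_Bad.2 h5)
        exact (Finset.card_le_card h3).trans (Finset.card_union_le _ _)
      have h5 := hlast a
      omega
    have h2 : Gd.card * (G Y j₁).card ≤ 2 * ((G Y j₁).card * Fin'.card) := by
      rw [← dc (G Y j₁) Fin', Finset.mul_sum]
      calc Gd.card * (G Y j₁).card = ∑ _a ∈ Gd, (G Y j₁).card := by
            rw [Finset.sum_const, smul_eq_mul]
        _ ≤ ∑ a ∈ Gd, 2 * ((G Y j₁).filter fun g => a + g ∈ Fin').card :=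
            Finset.sum_le_sum h1
        _ ≤ _ := Finset.sum_le_sum_of_subset (Finset.subset_univ _)
    have h3 := G_pos (j := j₁) hY
    refine Nat.le_of_mul_le_mul_left ?_ h3
    calc (G Y j₁).card * Gd.card = Gd.card * (G Y j₁).card := mul_comm _ _
      _ ≤ _ := h2
      _ = _ := by ring
  have hsub : Fin' ⊆ Finset.univ.filter (fun a =>
      ∀ e : ρ → ZMod 2, (∀ j, ∑ i, e i * X a j i = 0) → e = 0) := by
    intro a ha
    obtain ⟨h1, h2⟩ := Finset.mem_filter.1 ha
    have h3 := (Finset.mem_filter.1 h1).2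
    refine Finset.mem_filter.2 ⟨Finset.mem_univ _, fun e he => ?_⟩
    refine dual_zero hc (indep hrk fun j hj => ?_) e he
    by_cases hjj : j = j₁
    · subst hjj
      exact h2 (mem_Bad.2 hj)
    · exact h3 j hjj (mem_Bad.2 hj)
  have hfinal := Finset.card_le_card hsub
  omega

end Pool.Agent.H467.PT.Lin
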