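import Pool.Agent.H467.PT.Spec

set_option autoImplicit false

open Finset
open scoped Classical

namespace Pool.Agent.H467.PT.Rel

variable {ι : Type} (S : PSys ι)

theorem dg_erase {V : Finset ι} {p : ι} (hp : p ∈ V) :
    S.dg V = S.dg (V.erase p) + S.deg p := by
  unfold PSys.dg
  rw [Finset.sum_erase_add _ _ hp]

theorem dg_split {V V₁ : Finset ι} (h : V₁ ⊆ V) : S.dg V = S.dg (V \ V₁) + S.dg V₁ := by
  unfold PSys.dg
  rw [Finset.sum_sdiff h]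

/-- a small part of `V` of degree about `2 d` -/
theorem exists_part {C₄ d Y : ℕ} (hd : C₄ < 2 * d) {V : Finset ι} (hV : V ⊆ S.le Y)
    (h : 2 * d ≤ S.dg V + C₄) :
    ∃ V₁ ⊆ V, 2 * d ≤ S.dg V₁ + C₄ ∧ S.dg V₁ + C₄ < 2 * d + Y := by
  obtain ⟨V₁, h1, h2⟩ := Finset.exists_min_image
    (V.powerset.filter (fun A => 2 * d ≤ S.dg A + C₄)) Finset.card
    ⟨V, Finset.mem_filter.2 ⟨Finset.mem_powerset_self V, h⟩⟩
  rw [Finset.mem_filter, Finset.mem_powerset] at h1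
  refine ⟨V₁, h1.1, h1.2, ?_⟩
  have hne : V₁.Nonempty := by
    rw [Finset.nonempty_iff_ne_empty]
    rintro rfl
    have h3 := h1.2
    unfold PSys.dg at h3
    rw [Finset.sum_empty] at h3
    omega
  obtain ⟨p, hp⟩ := hne
  have h3 := dg_erase S hp
  have h4 : S.deg p ≤ Y := (S.mem_le Y p).1 (hV (h1.1 hp))
  have h5 : S.dg (V₁.erase p) + C₄ < 2 * d := by
    by_contra hcon
    push Not at hcon
    have h6 := h2 (V₁.erase p) (Finset.mem_filter.2 ⟨Finset.mem_powerset.2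
      ((Finset.erase_subset _ _).trans h1.1), hcon⟩)
    rw [Finset.card_erase_of_mem hp] at h6
    have h7 : 0 < V₁.card := Finset.card_pos.2 ⟨p, hp⟩
    omega
  omega

theorem mem_UU {V : Finset ι} {n : ℕ} (h : S.dg V = n) : V ∈ S.UU n := by
  unfold PSys.UU
  rw [Finset.mem_filter, Finset.mem_powerset]
  refine ⟨fun p hp => ?_, h⟩
  rw [S.mem_le, ← h]
  unfold PSys.dg
  exact Finset.single_le_sum (f := S.deg) (fun _ _ => Nat.zero_le _) hp

/-- the sum over all smooth sets -/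
theorem smooth_sum {q : ℕ} {C c : ℝ} {W n₀ : ℕ} (hP : PHyp S q C c W n₀) {Y : ℕ} (hY : 1 ≤ Y) :
    ∑ V ∈ (S.le Y).powerset, (1 / (q : ℝ)) ^ (S.dg V) ≤ Y * Real.exp C := by
  have hq : (0 : ℝ) < q := by
    have := hP.q2
    exact_mod_cast (by omega : 0 < q)
  have e1 : ∑ V ∈ (S.le Y).powerset, (1 / (q : ℝ)) ^ (S.dg V) =
      ∏ p ∈ S.le Y, (1 + (1 / (q : ℝ)) ^ (S.deg p)) := by
    rw [Finset.prod_one_add]
    refine Finset.sum_congr rfl fun V _ => ?_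
    unfold PSys.dg
    rw [Finset.prod_pow_eq_pow_sum]
  have e2 : ∏ p ∈ S.le Y, (1 + (1 / (q : ℝ)) ^ (S.deg p)) ≤
      ∏ p ∈ S.le Y, Real.exp ((1 / (q : ℝ)) ^ (S.deg p)) := by
    refine Finset.prod_le_prod (fun p _ => by positivity) (fun p _ => ?_)
    rw [add_comm]
    exact Real.add_one_le_exp _
  have e3 : ∑ p ∈ S.le Y, (1 / (q : ℝ)) ^ (S.deg p) =
      ∑ l ∈ Finset.Icc 1 Y, ((S.eq l).card : ℝ) / (q : ℝ) ^ l := by
    rw [← Finset.sum_fiberwise_of_maps_to (s := S.le Y) (t := Finset.Icc 1 Y) (g := S.deg)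
      (fun p hp => Finset.mem_Icc.2 ⟨S.pos p, (S.mem_le Y p).1 hp⟩)]
    refine Finset.sum_congr rfl fun l hl => ?_
    have e4 : (S.le Y).filter (fun p => S.deg p = l) = S.eq l := by
      unfold PSys.eq
      ext p
      rw [Finset.mem_filter, Finset.mem_filter, S.mem_le, S.mem_le]
      rw [Finset.mem_Icc] at hl
      constructor
      · rintro ⟨_, h⟩
        exact ⟨h.le, h⟩
      · rintro ⟨_, h⟩
        exact ⟨by omega, h⟩
    rw [e4]
    have e5 : ∀ p ∈ S.eq l, (1 / (q : ℝ)) ^ (S.deg p) = 1 / (q : ℝ) ^ l := by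
      intro p hp
      unfold PSys.eq at hp
      rw [(Finset.mem_filter.1 hp).2, one_div_pow]
    rw [Finset.sum_congr rfl e5, Finset.sum_const, nsmul_eq_mul]
    ring
  rw [e1]
  refine e2.trans ?_
  rw [← Real.exp_sum, e3]
  have hY0 : (0 : ℝ) < Y := by exact_mod_cast hY
  calc Real.exp (∑ l ∈ Finset.Icc 1 Y, ((S.eq l).card : ℝ) / (q : ℝ) ^ l)
      ≤ Real.exp (Real.log Y + C) := Real.exp_le_exp.2 (hP.mert Y hY)
    _ = Y * Real.exp C := by rw [Real.exp_add, Real.exp_log hY0]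

/-- the sum for one `e` -/
theorem one_e {q : ℕ} {C c : ℝ} {W n₀ : ℕ} (hP : PHyp S q C c W n₀) {C₄ : ℕ} {C₅ : ℝ}
    {d Y : ℕ} (hY : 1 ≤ Y) (hd : C₄ < 2 * d) (P : Finset ι → Prop) (T : Finset ι → Prop)
    (hT : ∀ V, P V → T V → 2 * d ≤ S.dg V + C₄)
    (h2 : ∀ V₂ n₁, 2 * d ≤ n₁ + C₄ →
      (((S.UU n₁).filter (fun V₁ => Disjoint V₁ V₂ ∧ P (V₁ ∪ V₂))).card : ℝ) ≤
        C₅ * (q : ℝ) ^ n₁ / (q : ℝ) ^ d) :
    ∑ V ∈ (S.le Y).powerset, (if P V ∧ T V then (1 / (q : ℝ)) ^ (S.dg V) else 0) ≤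
      (Y * Real.exp C) * (Y * |C₅| / (q : ℝ) ^ d) := by
  have hq : (0 : ℝ) < q := by
    have := hP.q2
    exact_mod_cast (by omega : 0 < q)
  rw [← Finset.sum_filter]
  set F := (S.le Y).powerset.filter (fun V => P V ∧ T V) with hF
  have hex : ∀ V ∈ F, ∃ V₁ ⊆ V, 2 * d ≤ S.dg V₁ + C₄ ∧ S.dg V₁ + C₄ < 2 * d + Y := by
    intro V hV
    rw [hF, Finset.mem_filter, Finset.mem_powerset] at hV
    exact exists_part S hd hV.1 (hT V hV.2.1 hV.2.2)
  choose! φ hφ1 hφ2 hφ3 using hex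
  set T' : Finset (Σ _ : Finset ι, Σ _ : ℕ, Finset ι) :=
    ((S.le Y).powerset).sigma (fun V₂ => (Finset.Ico (2 * d - C₄) (2 * d - C₄ + Y)).sigma
      (fun n₁ => (S.UU n₁).filter (fun V₁ => Disjoint V₁ V₂ ∧ P (V₁ ∪ V₂)))) with hT'
  set i : Finset ι → (Σ _ : Finset ι, Σ _ : ℕ, Finset ι) :=
    fun V => ⟨V \ φ V, ⟨S.dg (φ V), φ V⟩⟩ with hi
  have hmaps : ∀ V ∈ F, i V ∈ T' := by
    intro V hV
    have hV' := hV
    rw [hF, Finset.mem_filter, Finset.mem_powerset] at hV'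
    rw [hT', Finset.mem_sigma, Finset.mem_sigma, Finset.mem_powerset, Finset.mem_Ico,
      Finset.mem_filter]
    have h3 := hφ2 V hV
    have h4 := hφ3 V hV
    refine ⟨(Finset.sdiff_subset).trans hV'.1, ⟨?_, ?_⟩, mem_UU S rfl,
      Finset.disjoint_sdiff, ?_⟩
    · show 2 * d - C₄ ≤ S.dg (φ V)
      omega
    · show S.dg (φ V) < 2 * d - C₄ + Y
      omega
    · show P (φ V ∪ V \ φ V)
      rw [Finset.union_sdiff_of_subset (hφ1 V hV)]
      exact hV'.2.1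
  have hinj : Set.InjOn i F := by
    intro V hV V' hV' h
    have h3 : V \ φ V = V' \ φ V' := congrArg (fun t => t.1) h
    have h4 : φ V = φ V' := congrArg (fun t => t.2.2) h
    rw [← Finset.union_sdiff_of_subset (hφ1 V hV), ← Finset.union_sdiff_of_subset (hφ1 V' hV'),
      h3, h4]
  have step1 : ∑ V ∈ F, (1 / (q : ℝ)) ^ (S.dg V) ≤
      ∑ t ∈ T', (1 / (q : ℝ)) ^ (S.dg t.1) * (1 / (q : ℝ)) ^ t.2.1 := by
    have e1 : ∑ V ∈ F, (1 / (q : ℝ)) ^ (S.dg V) =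
        ∑ t ∈ F.image i, (1 / (q : ℝ)) ^ (S.dg t.1) * (1 / (q : ℝ)) ^ t.2.1 := by
      rw [Finset.sum_image hinj]
      refine Finset.sum_congr rfl fun V hV => ?_
      rw [dg_split S (hφ1 V hV), pow_add]
    rw [e1]
    refine Finset.sum_le_sum_of_subset_of_nonneg ?_ (fun _ _ _ => by positivity)
    intro t ht
    obtain ⟨V, hV, rfl⟩ := Finset.mem_image.1 ht
    exact hmaps V hV
  refine step1.trans ?_
  rw [hT', Finset.sum_sigma]
  have step2 : ∀ V₂ ∈ (S.le Y).powerset,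
      (∑ s ∈ (Finset.Ico (2 * d - C₄) (2 * d - C₄ + Y)).sigma
        (fun n₁ => (S.UU n₁).filter (fun V₁ => Disjoint V₁ V₂ ∧ P (V₁ ∪ V₂))),
        (1 / (q : ℝ)) ^ (S.dg V₂) * (1 / (q : ℝ)) ^ s.1) ≤
      (1 / (q : ℝ)) ^ (S.dg V₂) * (Y * |C₅| / (q : ℝ) ^ d) := by
    intro V₂ _
    rw [← Finset.mul_sum, Finset.sum_sigma]
    refine mul_le_mul_of_nonneg_left ?_ (by positivity)
    have step3 : ∀ n₁ ∈ Finset.Ico (2 * d - C₄) (2 * d - C₄ + Y),
        (∑ _V₁ ∈ (S.UU n₁).filter (fun V₁ => Disjoint V₁ V₂ ∧ P (V₁ ∪ V₂)),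
          (1 / (q : ℝ)) ^ n₁) ≤ |C₅| / (q : ℝ) ^ d := by
      intro n₁ hn
      rw [Finset.mem_Ico] at hn
      rw [Finset.sum_const, nsmul_eq_mul]
      have h3 := h2 V₂ n₁ (by omega)
      calc _ ≤ (C₅ * (q : ℝ) ^ n₁ / (q : ℝ) ^ d) * (1 / (q : ℝ)) ^ n₁ :=
            mul_le_mul_of_nonneg_right h3 (by positivity)
        _ = C₅ / (q : ℝ) ^ d := by
            rw [one_div_pow]
            field_simp
        _ ≤ |C₅| / (q : ℝ) ^ d :=
            div_le_div_of_nonneg_right (le_abs_self _) (by positivity)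
    calc _ ≤ ∑ _n₁ ∈ Finset.Ico (2 * d - C₄) (2 * d - C₄ + Y), |C₅| / (q : ℝ) ^ d :=
          Finset.sum_le_sum step3
      _ = Y * |C₅| / (q : ℝ) ^ d := by
          rw [Finset.sum_const, Nat.card_Ico, nsmul_eq_mul]
          have : 2 * d - C₄ + Y - (2 * d - C₄) = Y := by omega
          rw [this]
          ring
  calc _ ≤ ∑ V₂ ∈ (S.le Y).powerset,
        (1 / (q : ℝ)) ^ (S.dg V₂) * (Y * |C₅| / (q : ℝ) ^ d) := Finset.sum_le_sum step2
    _ = (∑ V₂ ∈ (S.le Y).powerset, (1 / (q : ℝ)) ^ (S.dg V₂)) *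
        (Y * |C₅| / (q : ℝ) ^ d) := by rw [Finset.sum_mul]
    _ ≤ (Y * Real.exp C) * (Y * |C₅| / (q : ℝ) ^ d) :=
        mul_le_mul_of_nonneg_right (smooth_sum S hP hY) (by positivity)

theorem rel : S_REL := by
  intro ι S q C c W n₀ hP C₄ C₅ E _ _
  refine ⟨max 1 ((Fintype.card E : ℝ) * |C₅| * Real.exp C), lt_max_of_lt_left one_pos, ?_⟩
  intro d Y Rel hY hd h1 h2
  have hq : (0 : ℝ) < q := by
    have := hP.q2
    exact_mod_cast (by omega : 0 < q)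
  rw [Finset.sum_comm]
  have h3 : ∀ e ∈ (Finset.univ : Finset E),
      (∑ V ∈ (S.le Y).powerset,
        (if Rel V e ∧ (V.Nonempty ∨ e ≠ 0) then (1 / (q : ℝ)) ^ (S.dg V) else 0)) ≤
      (Y * Real.exp C) * (Y * |C₅| / (q : ℝ) ^ d) := by
    intro e _
    refine le_trans (le_of_eq (Finset.sum_congr rfl fun V _ => ?_))
      (one_e S hP hY hd (fun V => Rel V e) (fun V => V.Nonempty ∨ e ≠ 0)
        (fun V h h' => h1 V e h h') (fun V₂ n₁ h => h2 V₂ e n₁ h))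
    by_cases h : Rel V e ∧ (V.Nonempty ∨ e ≠ 0)
    · rw [if_pos h, if_pos h]
    · rw [if_neg h, if_neg h]
  refine (Finset.sum_le_sum h3).trans ?_
  rw [Finset.sum_const, Finset.card_univ, nsmul_eq_mul]
  calc (Fintype.card E : ℝ) * ((Y * Real.exp C) * (Y * |C₅| / (q : ℝ) ^ d))
      = ((Fintype.card E : ℝ) * |C₅| * Real.exp C) * ((Y : ℝ) ^ 2 / (q : ℝ) ^ d) := by ring
    _ ≤ max 1 ((Fintype.card E : ℝ) * |C₅| * Real.exp C) * ((Y : ℝ) ^ 2 / (q : ℝ) ^ d) :=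
        mul_le_mul_of_nonneg_right (le_max_right _ _) (by positivity)
    _ = _ := by ring

end Pool.Agent.H467.PT.Rel
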