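import Mathlib

/-!
# Positive proportion of all twists: the combinatorial part, statements

Project PT (helper467). Here `ι` is an abstract set of primes with degrees, and nothing is arithmetic.
-/

set_option autoImplicit false
set_option linter.all false

open Finset
open scoped Classical

namespace Pool.Agent.H467.PT

/-- Primes with degrees; `le l` is the finite set of the primes of degree at most `l`. -/
structure PSys (ι : Type) where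
  deg : ι → ℕ
  le : ℕ → Finset ι
  mem_le : ∀ l p, p ∈ le l ↔ deg p ≤ l
  pos : ∀ p, 0 < deg p

namespace PSys

variable {ι : Type} (S : PSys ι)

/-- The primes of degree `l`. -/
def eq (l : ℕ) : Finset ι := (S.le l).filter (fun p => S.deg p = l)

/-- The degree of a finite set of primes. -/
def dg (U : Finset ι) : ℕ := ∑ p ∈ U, S.deg p

/-- The finite sets of primes of degree `n`. -/
def UU (n : ℕ) : Finset (Finset ι) := (S.le n).powerset.filter (fun U => S.dg U = n)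

end PSys

/-- The facts on the numbers of the primes. -/
structure PHyp {ι : Type} (S : PSys ι) (q : ℕ) (C c : ℝ) (W n₀ : ℕ) : Prop where
  q2 : 2 ≤ q
  C1 : 1 ≤ C
  c0 : 0 < c
  up : ∀ l : ℕ, (l : ℝ) * ((S.eq l).card : ℝ) ≤ C * (q : ℝ) ^ l
  mert : ∀ N : ℕ, 1 ≤ N →
    ∑ l ∈ Finset.Icc 1 N, ((S.eq l).card : ℝ) / (q : ℝ) ^ l ≤ Real.log N + C
  low : ∀ x Y : ℕ, x ≤ Y → c * Real.log (((Y : ℝ) + 1) / ((x : ℝ) + 1)) - C ≤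
    ∑ l ∈ Finset.Ioc x Y, ((S.eq l).card : ℝ) / (q : ℝ) ^ l
  many : ∀ n, n₀ ≤ n → ∃ n' ≤ n, n ≤ n' + W ∧ c * (q : ℝ) ^ n' ≤ ((S.UU n').card : ℝ)

/-- The number of primes in `U` with degree in `(x, Y]`. -/
noncomputable def cnt {ι : Type} (S : PSys ι) (x Y : ℕ) (U : Finset ι) : ℕ :=
  (U.filter (fun p => x < S.deg p ∧ S.deg p ≤ Y)).card

/-- Hall's inequality. -/
def S_HAL : Prop := ∀ (ι : Type) (S : PSys ι) (q : ℕ) (C c : ℝ) (W n₀ : ℕ), PHyp S q C c W n₀ →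
  ∃ C' : ℝ, 0 < C' ∧ ∀ x Y N : ℕ,
    ∑ U ∈ S.UU N, (1 / 2 : ℝ) ^ (cnt S x Y U) ≤
      C' * (q : ℝ) ^ N * (((x : ℝ) + 1) / (((min Y N : ℕ) : ℝ) + 1)) ^ (c / 2)

/-- The sum over the smooth sets which satisfy a relation. -/
def S_REL : Prop := ∀ (ι : Type) (S : PSys ι) (q : ℕ) (C c : ℝ) (W n₀ : ℕ), PHyp S q C c W n₀ →
  ∀ (C₄ : ℕ) (C₅ : ℝ) (E : Type) [Fintype E] [Zero E], ∃ C₆ : ℝ, 0 < C₆ ∧
    ∀ (d Y : ℕ) (Rel : Finset ι → E → Prop), 1 ≤ Y → C₄ < 2 * d →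
    (∀ V e, Rel V e → (V.Nonempty ∨ e ≠ 0) → 2 * d ≤ S.dg V + C₄) →
    (∀ V₂ e n₁, 2 * d ≤ n₁ + C₄ →
      (((S.UU n₁).filter (fun V₁ => Disjoint V₁ V₂ ∧ Rel (V₁ ∪ V₂) e)).card : ℝ) ≤
        C₅ * (q : ℝ) ^ n₁ / (q : ℝ) ^ d) →
    ∑ V ∈ (S.le Y).powerset, ∑ e : E,
      (if Rel V e ∧ (V.Nonempty ∨ e ≠ 0) then (1 / (q : ℝ)) ^ (S.dg V) else 0) ≤
        C₆ * (Y : ℝ) ^ 2 / (q : ℝ) ^ d

/-- Abstract relations: `Rel₁ j V e` for a prime `j`, and `Rel₀ R j V e` for the bad places `j` and a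
parameter `R`. -/
structure RHyp {ι : Type} (S : PSys ι) (q : ℕ) {E J : Type} [Zero E]
    (Rel₁ : ι → Finset ι → E → Prop) (Rel₀ : ℕ → J → Finset ι → E → Prop) (d₀ : ℕ → J → ℕ)
    (C₄ : ℕ) (C₅ : ℝ) : Prop where
  ge : ∀ R j, R ≤ d₀ R j
  r1 : ∀ j V e, j ∉ V → Rel₁ j V e → (V.Nonempty ∨ e ≠ 0) → 2 * S.deg j ≤ S.dg V + C₄
  r2 : ∀ j V₂ e n₁, j ∉ V₂ → 2 * S.deg j ≤ n₁ + C₄ →
    (((S.UU n₁).filter (fun V₁ => j ∉ V₁ ∧ Disjoint V₁ V₂ ∧ Rel₁ j (V₁ ∪ V₂) e)).card : ℝ) ≤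
      C₅ * (q : ℝ) ^ n₁ / (q : ℝ) ^ (S.deg j)
  r1' : ∀ R j V e, Rel₀ R j V e → (V.Nonempty ∨ e ≠ 0) → 2 * d₀ R j ≤ S.dg V + C₄
  r2' : ∀ R j V₂ e n₁, 2 * d₀ R j ≤ n₁ + C₄ →
    (((S.UU n₁).filter (fun V₁ => Disjoint V₁ V₂ ∧ Rel₀ R j (V₁ ∪ V₂) e)).card : ℝ) ≤
      C₅ * (q : ℝ) ^ n₁ / (q : ℝ) ^ (d₀ R j)

/-- The bound for the degrees of the primes in the relations. -/
def Yf (d : ℕ) : ℕ := 2 ^ (d / 4)

/-- Good sets of primes. -/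
structure GoodU {ι : Type} (S : PSys ι) (q : ℕ) {E J : Type} [Fintype J] [Zero E]
    (Rel₁ : ι → Finset ι → E → Prop) (Rel₀ : ℕ → J → Finset ι → E → Prop) (L R : ℕ)
    (U : Finset ι) : Prop where
  rough : ∀ p ∈ U, L < S.deg p
  g1 : ∀ j ∈ U, ∀ V ⊆ U, j ∉ V → (∀ p ∈ V, S.deg p ≤ Yf (S.deg j)) →
    ∀ e, (V.Nonempty ∨ e ≠ 0) → ¬ Rel₁ j V e
  g1' : ∀ j : J, ∀ V ⊆ U, (∀ p ∈ V, S.deg p ≤ Yf R) →
    ∀ e, (V.Nonempty ∨ e ≠ 0) → ¬ Rel₀ R j V e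
  g2 : ∑ j ∈ U.filter (fun j => Yf (S.deg j) < S.dg U),
      (1 / 2 : ℝ) ^ (cnt S (S.deg j) (Yf (S.deg j)) U) +
    (Fintype.card J : ℝ) * (1 / 2 : ℝ) ^ (cnt S 0 (Yf R) U) ≤ 1 / 4
  g4 : ∑ p ∈ U, (1 / (q : ℝ)) ^ (S.deg p) ≤ 1 / 16

/-- There are many good sets. -/
def S_GC : Prop := ∀ (ι : Type) (S : PSys ι) (q : ℕ) (C c : ℝ) (W n₀ : ℕ), PHyp S q C c W n₀ →
  ∀ (E J : Type) [Fintype E] [Fintype J] [Zero E] (Rel₁ : ι → Finset ι → E → Prop)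
    (Rel₀ : ℕ → J → Finset ι → E → Prop) (d₀ : ℕ → J → ℕ) (C₄ : ℕ) (C₅ : ℝ),
    RHyp S q Rel₁ Rel₀ d₀ C₄ C₅ → ∀ L₀ R₀ : ℕ, ∃ L R : ℕ, L₀ ≤ L ∧ R₀ ≤ R ∧ ∃ c' : ℝ, 0 < c' ∧
      ∃ W' n₁ : ℕ, ∀ n, n₁ ≤ n → ∃ n' ≤ n, n ≤ n' + W' ∧
        c' * (q : ℝ) ^ n' ≤ (((S.UU n').filter (fun U => GoodU S q Rel₁ Rel₀ L R U)).card : ℝ)

/-- Rough sets: there are many sets of primes of large degree. -/
def S_RGH : Prop := ∀ (ι : Type) (S : PSys ι) (q : ℕ) (C c : ℝ) (W n₀ : ℕ), PHyp S q C c W n₀ →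
  ∀ L : ℕ, 1 ≤ L → ∃ W' n₁ : ℕ, ∀ n, n₁ ≤ n → ∃ n' ≤ n, n ≤ n' + W' ∧
    c / (Real.exp C * L) * (q : ℝ) ^ n' ≤
      (((S.UU n').filter (fun U => ∀ p ∈ U, L < S.deg p)).card : ℝ)

/-- Random matrices with independent columns: `X a j` is the column `j` of the matrix of `a ∈ A`,
`Y` the linear part of `X`, `rk` an ordering of the columns, `j₁` the last column. For every column `j`
there are elements of `A` which change only this column, and change it in an arbitrary way in the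
rows in `R j`. Then at least one eighth of the matrices is invertible. -/
def S_LIN : Prop := ∀ (A κ ρ : Type) [AddCommGroup A] [Fintype A] [Fintype κ] [Fintype ρ],
  Fintype.card κ = Fintype.card ρ → ∀ (X Y : A → κ → ρ → ZMod 2),
  (∀ a a' j i, X (a + a') j i = X a j i + Y a' j i) →
  (∀ a a' j i, Y (a + a') j i = Y a j i + Y a' j i) →
  ∀ (rk : κ → ℕ), Function.Injective rk → ∀ (j₁ : κ), (∀ l, l ≠ j₁ → rk l < rk j₁) →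
  ∀ (R : κ → Finset ρ), (∀ j (y : ρ → ZMod 2), ∃ a, (∀ l, l ≠ j → ∀ i, Y a l i = 0) ∧
    ∀ i ∈ R j, Y a j i = y i) → R j₁ = Finset.univ →
  ∑ j ∈ Finset.univ.erase j₁, (1 / 2 : ℝ) ^ (R j).card *
    2 ^ ((Finset.univ.filter (fun l => rk l < rk j)).card) ≤ 3 / 4 →
  Fintype.card A ≤ 8 * (Finset.univ.filter (fun a =>
    ∀ e : ρ → ZMod 2, (∀ j, ∑ i, e i * X a j i = 0) → e = 0)).card

/-- The ordering of the columns: `rows` are the bad finite places `B` and the primes in `U`, the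
columns are the bad places `J = Option B` and the primes in `U`, except for `P₀`. -/
def S_ORD : Prop := ∀ (ι : Type) (S : PSys ι) (q : ℕ) (E B : Type) [Fintype B] [Zero E]
  (Rel₁ : ι → Finset ι → E → Prop) (Rel₀ : ℕ → Option B → Finset ι → E → Prop) (L R : ℕ)
  (U : Finset ι), 24 ≤ L → GoodU S q Rel₁ Rel₀ L R U →
  ∃ P₀ ∈ U, S.dg U ≤ Yf (S.deg P₀) ∧ ∃ P₁ ∈ U, P₁ ≠ P₀ ∧ S.dg U ≤ Yf (S.deg P₁) ∧
    ∃ rk : Option B ⊕ (U.erase P₀ : Finset ι) → ℕ, Function.Injective rk ∧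
      (∀ l : Option B ⊕ (U.erase P₀ : Finset ι), (∀ h, l ≠ Sum.inr ⟨P₁, h⟩) →
        ∀ h, rk l < rk (Sum.inr ⟨P₁, h⟩)) ∧
      ∑ j ∈ Finset.univ.filter (fun j : Option B ⊕ (U.erase P₀ : Finset ι) =>
          ∀ h, j ≠ Sum.inr ⟨P₁, h⟩),
        (1 / 2 : ℝ) ^ (Fintype.card B + (U.filter (fun p => S.deg p ≤ match j with
          | Sum.inl _ => Yf R
          | Sum.inr j => Yf (S.deg j.1))).card) *
        2 ^ ((Finset.univ.filter (fun l => rk l < rk j)).card) ≤ 3 / 4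

end Pool.Agent.H467.PT
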